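import Mathlib

/-! Trigonometric polynomials on `ZMod N` and a smooth form of the top binary digit. -/

set_option autoImplicit false
set_option linter.unusedSectionVars false

namespace Pool.Agent.Lib.MP_a01f70_lc.SP

open Finset ZMod Real

variable {N : ℕ} [NeZero N]

/-- The character of frequency `η`. -/
noncomputable def chr (η : ZMod N) : ZMod N → ℂ := fun x => stdAddChar (η * x)

/-- The spectrum of `f` lies in `A`. -/
def Sp (A : Set (ZMod N)) (f : ZMod N → ℂ) : Prop := f ∈ Submodule.span ℂ (chr '' A)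

theorem sp_chr {A : Set (ZMod N)} {η : ZMod N} (h : η ∈ A) : Sp A (chr η) :=
  Submodule.subset_span ⟨η, h, rfl⟩

theorem Sp.mono {A B : Set (ZMod N)} {f : ZMod N → ℂ} (h : Sp A f) (hAB : A ⊆ B) : Sp B f :=
  Submodule.span_mono (Set.image_mono hAB) h

theorem Sp.mul {A B C : Set (ZMod N)} {f g : ZMod N → ℂ} (hf : Sp A f) (hg : Sp B g)
    (h : ∀ a ∈ A, ∀ b ∈ B, a + b ∈ C) : Sp C (f * g) := by
  have h1 := Submodule.mul_mem_mul hf hg
  rw [Submodule.span_mul_span] at h1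
  refine Submodule.span_mono ?_ h1
  rintro _ ⟨_, ⟨a, ha, rfl⟩, _, ⟨b, hb, rfl⟩, rfl⟩
  refine ⟨a + b, h a ha b hb, funext fun x => ?_⟩
  simp [chr, add_mul, AddChar.map_add_eq_mul]

theorem Sp.dil {A B : Set (ZMod N)} {f : ZMod N → ℂ} (hf : Sp A f) (c : ZMod N)
    (h : ∀ a ∈ A, a * c ∈ B) : Sp B fun x => f (c * x) := by
  induction hf using Submodule.span_induction with
  | mem g hg =>
    obtain ⟨a, ha, rfl⟩ := hg
    have : (fun x => chr a (c * x)) = chr (a * c) := funext fun x => by simp [chr, mul_assoc]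
    rw [this]
    exact sp_chr (h a ha)
  | zero => exact Submodule.zero_mem _
  | add f g _ _ h1 h2 => exact Submodule.add_mem _ h1 h2
  | smul a f _ h1 => exact Submodule.smul_mem _ a h1

theorem sum_chr (y : ZMod N) : ∑ x : ZMod N, stdAddChar (x * y) = if y = 0 then (N : ℂ) else 0 := by
  rw [AddChar.sum_mulShift y (isPrimitive_stdAddChar N)]
  split_ifs <;> simp

theorem norm_e (y : ZMod N) : ‖stdAddChar y‖ = 1 := by simp [stdAddChar_apply]

/-- Fourier coefficient. -/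
noncomputable def co (f : ZMod N → ℂ) (η : ZMod N) : ℂ :=
  (N : ℂ)⁻¹ * ∑ x, f x * stdAddChar (-(η * x))

theorem co_inv (f : ZMod N → ℂ) (x : ZMod N) : f x = ∑ η, co f η * chr η x := by
  have hN : (N : ℂ) ≠ 0 := Nat.cast_ne_zero.2 (NeZero.ne N)
  have h1 : ∀ η, co f η * chr η x = (N : ℂ)⁻¹ * ∑ y, f y * stdAddChar (η * (x - y)) := by
    intro η
    rw [co, mul_assoc, sum_mul]
    congr 1
    refine sum_congr rfl fun y _ => ?_
    rw [chr, mul_assoc, ← AddChar.map_add_eq_mul]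
    congr 2
    ring
  simp only [h1]
  rw [← mul_sum, sum_comm]
  simp only [← mul_sum, sum_chr, sub_eq_zero]
  simp [mul_comm (f x), ← mul_assoc, inv_mul_cancel₀ hN]

theorem co_le {f : ZMod N → ℂ} (h : ∀ x, ‖f x‖ ≤ 1) (η : ZMod N) : ‖co f η‖ ≤ 1 := by
  have hN : (0 : ℝ) < N := Nat.cast_pos.2 (NeZero.pos N)
  rw [co, norm_mul, norm_inv, Complex.norm_natCast, inv_mul_le_iff₀ hN]
  refine (norm_sum_le _ _).trans ((sum_le_sum (g := fun _ => (1 : ℝ)) fun x _ => ?_).trans ?_)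
  · rw [norm_mul, norm_e, mul_one]
    exact h x
  · simp

theorem Sp.co_zero {A : Set (ZMod N)} {f : ZMod N → ℂ} (hf : Sp A f) {η : ZMod N} (h : η ∉ A) :
    co f η = 0 := by
  induction hf using Submodule.span_induction with
  | mem g hg =>
    obtain ⟨a, ha, rfl⟩ := hg
    have h1 : ∀ x, chr a x * stdAddChar (-(η * x)) = stdAddChar (x * (a - η)) := fun x => by
      rw [chr, ← AddChar.map_add_eq_mul]
      congr 1
      ring
    have h2 : a - η ≠ 0 := fun h0 => h (sub_eq_zero.1 h0 ▸ ha)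
    simp only [co, h1, sum_chr, if_neg h2, mul_zero]
  | zero => simp [co]
  | add f g _ _ h1 h2 =>
    simp only [co, Pi.add_apply, add_mul, sum_add_distrib, mul_add] at h1 h2 ⊢
    rw [h1, h2, add_zero]
  | smul a f _ h1 =>
    simp only [co, Pi.smul_apply, smul_eq_mul, mul_assoc, ← mul_sum] at h1 ⊢
    rw [mul_left_comm, h1, mul_zero]

/-- Testing a bounded trigonometric polynomial against a finite family of points. -/
theorem Sp.test {Ω : Type} [Fintype Ω] (U : Ω → ZMod N) {A : Finset (ZMod N)} {f : ZMod N → ℂ}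
    (hf : Sp A f) (h1 : ∀ x, ‖f x‖ ≤ 1) {ε : ℝ} (hε : 0 ≤ ε)
    (h : ∀ η ∈ A, η ≠ 0 → ‖∑ ω, chr η (U ω)‖ ≤ ε) :
    ‖∑ ω, f (U ω) - co f 0 * Fintype.card Ω‖ ≤ A.card * ε := by
  classical
  have e1 : ∑ ω, f (U ω) = ∑ η, co f η * ∑ ω, chr η (U ω) := by
    simp only [mul_sum]
    rw [sum_comm]
    exact sum_congr rfl fun ω _ => co_inv f _
  have e2 : co f 0 * ∑ ω, chr 0 (U ω) = co f 0 * Fintype.card Ω := by simp [chr]
  rw [e1, ← add_sum_erase _ _ (mem_univ 0), e2, add_sub_cancel_left,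
    ← sum_subset (s₁ := A.erase 0) (erase_subset_erase _ (subset_univ _)) fun η h1 h2 => by
      rw [hf.co_zero fun h3 => h2 (mem_erase.2 ⟨(mem_erase.1 h1).1, h3⟩), zero_mul]]
  refine (norm_sum_le _ _).trans ((sum_le_sum (g := fun _ => ε) fun η hη => ?_).trans ?_)
  · rw [norm_mul]
    exact (mul_le_of_le_one_left (norm_nonneg _) (co_le h1 η)).trans
      (h η (mem_erase.1 hη).2 (mem_erase.1 hη).1)
  · rw [sum_const, nsmul_eq_mul]
    exact mul_le_mul_of_nonneg_right (by exact_mod_cast card_erase_le) hε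

theorem e_eq (x : ZMod N) :
    stdAddChar x = Complex.exp ((2 * π * (x.valMinAbs / N) : ℝ) * Complex.I) := by
  conv_lhs => rw [← coe_valMinAbs x, stdAddChar_coe]
  congr 1
  push_cast
  ring

theorem abs_vm (x : ZMod N) : 2 * |(x.valMinAbs : ℝ)| ≤ N := by
  have h := natAbs_valMinAbs_le x
  have h2 : 2 * x.valMinAbs.natAbs ≤ N := by omega
  have h3 : ((2 * x.valMinAbs.natAbs : ℕ) : ℝ) ≤ N := by exact_mod_cast h2
  simpa using h3

theorem abs_arg (x : ZMod N) : |2 * π * ((x.valMinAbs : ℝ) / N)| ≤ π := by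
  have hN : (0 : ℝ) < N := Nat.cast_pos.2 (NeZero.pos N)
  have h := abs_vm x
  rw [abs_mul, abs_div, abs_of_pos hN, abs_of_pos two_pi_pos, mul_div_assoc', div_le_iff₀ hN]
  nlinarith [pi_pos]

theorem re_e_le (x : ZMod N) : (stdAddChar x).re ≤ 1 - 8 * ((x.valMinAbs : ℝ) / N) ^ 2 := by
  rw [e_eq, Complex.exp_ofReal_mul_I_re]
  refine (cos_le_one_sub_mul_cos_sq (abs_arg x)).trans (le_of_eq ?_)
  field_simp
  ring

/-- The sign attached to the top binary digit. -/
def sg (x : ZMod N) : ℤ := if 0 ≤ x.valMinAbs then -1 else 1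

theorem sg_cases (x : ZMod N) : sg x = -1 ∨ sg x = 1 := by
  unfold sg
  split_ifs <;> simp

theorem sg_sq (x : ZMod N) : (sg x : ℝ) ^ 2 = 1 := by
  rcases sg_cases x with h | h <;> simp [h]

theorem abs_sg (x : ZMod N) : |(sg x : ℝ)| = 1 := by
  rcases sg_cases x with h | h <;> simp [h]

/-- The iterated map. -/
noncomputable def tm (y : ℝ) : ℝ := (3 * y - y ^ 3) / 2

/-- The smooth form of `sg`. -/
noncomputable def qq (J : ℕ) (x : ZMod N) : ℝ := tm^[J] (-(stdAddChar x).im)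

theorem tm_iter {y : ℝ} (h0 : 0 ≤ y) (h1 : y ≤ 1) (J : ℕ) :
    y ≤ tm^[J] y ∧ tm^[J] y ≤ 1 ∧ (1 - tm^[J] y) * y ≤ (2 / 3) ^ J * tm^[J] y := by
  induction J with
  | zero => exact ⟨le_rfl, h1, by simp; nlinarith⟩
  | succ J ih =>
    rw [Function.iterate_succ_apply']
    obtain ⟨a1, a2, a3⟩ := ih
    generalize tm^[J] y = z at a1 a2 a3
    have hz : 0 ≤ z := h0.trans a1
    have b1 : z ≤ tm z := by
      unfold tm
      nlinarith [mul_nonneg hz (mul_nonneg (sub_nonneg.2 a2) (add_nonneg hz zero_le_one))]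
    have b2 : tm z ≤ 1 := by
      unfold tm
      nlinarith [mul_nonneg (sq_nonneg (1 - z)) (add_nonneg hz zero_le_two)]
    refine ⟨a1.trans b1, b2, ?_⟩
    rcases hz.eq_or_lt with rfl | hz'
    · have : y = 0 := le_antisymm a1 h0
      simp [this, tm]
    · have b3 : (1 - tm z) * z ≤ 2 / 3 * ((1 - z) * tm z) := by
        unfold tm
        nlinarith [mul_nonneg (mul_nonneg hz (sub_nonneg.2 a2))
          (add_nonneg hz (mul_nonneg hz hz)), mul_nonneg (mul_nonneg hz (sub_nonneg.2 a2)) hz]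
      refine le_of_mul_le_mul_right ?_ hz'
      have b4 := mul_le_mul_of_nonneg_right b3 h0
      have b5 := mul_le_mul_of_nonneg_right a3 (hz.trans b1)
      rw [pow_succ]
      nlinarith

theorem tm_sign {s : ℝ} (hs : s ^ 2 = 1) (y : ℝ) (J : ℕ) : tm^[J] (s * y) = s * tm^[J] y := by
  induction J with
  | zero => rfl
  | succ J ih =>
    rw [Function.iterate_succ_apply', Function.iterate_succ_apply', ih]
    unfold tm
    linear_combination (-(s * ((fun y : ℝ => (3 * y - y ^ 3) / 2)^[J] y) ^ 3) / 2) * hs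

theorem sg_mul (x : ZMod N) : -(stdAddChar x).im = sg x * |(stdAddChar x).im| := by
  have hN : (0 : ℝ) < N := Nat.cast_pos.2 (NeZero.pos N)
  have h := abs_le.1 (abs_arg x)
  rw [e_eq, Complex.exp_ofReal_mul_I_im, sg]
  split_ifs with h0
  · have h1 : (0 : ℝ) ≤ x.valMinAbs := by exact_mod_cast h0
    rw [abs_of_nonneg (sin_nonneg_of_nonneg_of_le_pi (by positivity) h.2)]
    simp
  · have h1 : (x.valMinAbs : ℝ) ≤ 0 := by exact_mod_cast (not_le.1 h0).le
    rw [abs_of_nonpos (sin_nonpos_of_nonpos_of_neg_pi_le (mul_nonpos_of_nonneg_of_nonpos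
      two_pi_pos.le (div_nonpos_of_nonpos_of_nonneg h1 hN.le)) h.1)]
    simp

theorem qq_eq (J : ℕ) (x : ZMod N) : qq J x = sg x * tm^[J] |(stdAddChar x).im| := by
  rw [qq, sg_mul, tm_sign (sg_sq x)]

theorem im_le (x : ZMod N) : |(stdAddChar x).im| ≤ 1 := (Complex.abs_im_le_norm _).trans (norm_e x).le

theorem abs_qq (J : ℕ) (x : ZMod N) : |qq J x| ≤ 1 := by
  obtain ⟨a1, a2, -⟩ := tm_iter (abs_nonneg _) (im_le x) J
  rw [qq_eq, abs_mul, abs_sg, one_mul, abs_of_nonneg ((abs_nonneg _).trans a1)]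
  exact a2

theorem sg_sub_qq (J : ℕ) (x : ZMod N) : |sg x - qq J x| ≤ 1 - qq J x ^ 2 := by
  obtain ⟨a1, a2, -⟩ := tm_iter (abs_nonneg _) (im_le x) J
  have a0 := (abs_nonneg _).trans a1
  rw [qq_eq, mul_pow, sg_sq, ← mul_one_sub, abs_mul, abs_sg, abs_of_nonneg (sub_nonneg.2 a2)]
  nlinarith

theorem im_ge (x : ZMod N) : 2 * |((2 * x).valMinAbs : ℝ)| / N ≤ |(stdAddChar x).im| := by
  have hN : (0 : ℝ) < N := Nat.cast_pos.2 (NeZero.pos N)
  have h1 := re_e_le (2 * x)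
  rw [two_mul x, AddChar.map_add_eq_mul, Complex.mul_re, ← two_mul x] at h1
  have h2 := Complex.sq_norm (stdAddChar x)
  rw [norm_e, Complex.normSq_apply] at h2
  refine abs_le_of_sq_le_sq' ?_ (abs_nonneg _) |>.2
  rw [sq_abs, div_pow, mul_pow, sq_abs]
  rw [div_pow] at h1
  have : 2 ^ 2 * ((2 * x).valMinAbs : ℝ) ^ 2 / N ^ 2 =
    4 * (((2 * x).valMinAbs : ℝ) ^ 2 / N ^ 2) := by ring
  nlinarith

theorem sum_one_sub (hN : Odd N) (J : ℕ) {D : ℝ} (hD : 0 < D) :
    ∑ x : ZMod N, (1 - qq J x ^ 2) ≤ 4 * D + 2 + (2 / 3) ^ J * N ^ 2 / D := by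
  classical
  have hN0 : (0 : ℝ) < N := Nat.cast_pos.2 (NeZero.pos N)
  have h1 : ∀ x : ZMod N, 1 - qq J x ^ 2 ≤
      2 * (if |((2 * x).valMinAbs : ℝ)| < D then 1 else 0) + (2 / 3) ^ J * N / D := by
    intro x
    obtain ⟨a1, a2, a3⟩ := tm_iter (abs_nonneg _) (im_le x) J
    have a0 := (abs_nonneg _).trans a1
    have a4 := im_ge x
    have a5 : 0 ≤ (2 / 3 : ℝ) ^ J * N / D := by positivity
    rw [qq_eq, mul_pow, sg_sq]
    generalize tm^[J] |(stdAddChar x).im| = z at a0 a1 a2 a3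
    split_ifs with h
    · nlinarith
    · have b1 : 2 * D / N ≤ |(stdAddChar x).im| :=
        le_trans (div_le_div_of_nonneg_right (by linarith) hN0.le) a4
      have b2 : (1 - z) * (2 * D / N) ≤ (2 / 3) ^ J :=
        (mul_le_mul_of_nonneg_left b1 (sub_nonneg.2 a2)).trans
          (a3.trans (mul_le_of_le_one_right (by positivity) a2))
      have b3 : 2 * (1 - z) ≤ (2 / 3) ^ J * N / D := by
        rw [le_div_iff₀ hD]
        rw [mul_div_assoc', div_le_iff₀ hN0] at b2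
        linarith
      nlinarith
  refine (sum_le_sum fun x _ => h1 x).trans ?_
  rw [sum_add_distrib, ← mul_sum, sum_boole, sum_const, card_univ, ZMod.card, nsmul_eq_mul]
  have h2 : (univ.filter fun x : ZMod N => |((2 * x).valMinAbs : ℝ)| < D).card ≤
      (Icc (-⌊D⌋) ⌊D⌋).card := by
    refine card_le_card_of_injOn (fun x => (2 * x).valMinAbs) (fun x hx => ?_) fun x _ y _ h => ?_
    · have h3 := abs_lt.1 (mem_filter.1 hx).2
      refine mem_coe.2 (mem_Icc.2 ⟨?_, Int.le_floor.2 h3.2.le⟩)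
      rw [neg_le, Int.le_floor]
      push_cast
      linarith [h3.1]
    · have h3 : IsUnit (2 : ZMod N) := by
        have := (ZMod.isUnit_iff_coprime 2 N).2 (Nat.coprime_two_left.2 hN)
        exact_mod_cast this
      exact h3.mul_left_cancel (injective_valMinAbs h)
  have h3 : (((Icc (-⌊D⌋) ⌊D⌋).card : ℤ) : ℝ) = 2 * ⌊D⌋ + 1 := by
    rw [Int.card_Icc_of_le _ _ (by linarith [Int.floor_nonneg.2 hD.le])]
    push_cast
    ring
  have h4 : ((univ.filter fun x : ZMod N => |((2 * x).valMinAbs : ℝ)| < D).card : ℝ) ≤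
      (Icc (-⌊D⌋) ⌊D⌋).card := by exact_mod_cast h2
  have h5 := Int.floor_le D
  have h6 : (N : ℝ) * ((2 / 3) ^ J * N / D) = (2 / 3) ^ J * N ^ 2 / D := by ring
  push_cast at h3
  linarith

/-- Odd frequencies up to `K`. -/
def Od (N K : ℕ) : Set (ZMod N) := {η | ∃ k : ℤ, Odd k ∧ |k| ≤ K ∧ η = k}

theorem sp_qq (J : ℕ) : Sp (Od N (3 ^ J)) fun x => (qq J x : ℂ) := by
  induction J with
  | zero =>
    have : (fun x : ZMod N => (qq 0 x : ℂ)) = (Complex.I / 2) • (chr 1 - chr (-1)) := by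
      funext x
      simp only [qq, Function.iterate_zero, id, chr, Pi.smul_apply, Pi.sub_apply, one_mul,
        neg_mul, smul_eq_mul]
      rw [AddChar.map_neg_eq_conj, Complex.sub_conj]
      push_cast
      linear_combination (-((stdAddChar x).im : ℂ)) * Complex.I_mul_I
    rw [this]
    exact Submodule.smul_mem _ _ (Submodule.sub_mem _ (sp_chr ⟨1, odd_one, by simp, by simp⟩)
      (sp_chr ⟨-1, odd_neg_one, by simp, by simp⟩))
  | succ J ih =>
    have : (fun x : ZMod N => (qq (J + 1) x : ℂ)) = (3 / 2 : ℂ) • (fun x => (qq J x : ℂ)) -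
        (1 / 2 : ℂ) • ((fun x => (qq J x : ℂ)) * (fun x => (qq J x : ℂ)) *
          fun x => (qq J x : ℂ)) := by
      funext x
      simp only [qq, Function.iterate_succ_apply', tm, Pi.sub_apply, Pi.smul_apply, Pi.mul_apply,
        smul_eq_mul]
      push_cast
      ring
    rw [this]
    refine Submodule.sub_mem _ (Submodule.smul_mem _ _ (ih.mono ?_)) (Submodule.smul_mem _ _
      ((ih.mul ih (C := {η | ∃ k : ℤ, Even k ∧ |k| ≤ 2 * 3 ^ J ∧ η = k}) ?_).mul ih ?_))
    · rintro _ ⟨k, h1, h2, rfl⟩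
      exact ⟨k, h1, h2.trans (by exact_mod_cast Nat.pow_le_pow_right (by norm_num) (Nat.le_succ J)),
        rfl⟩
    · rintro _ ⟨k, h1, h2, rfl⟩ _ ⟨l, h3, h4, rfl⟩
      refine ⟨k + l, h1.add_odd h3, (abs_add_le k l).trans ?_, by push_cast; rfl⟩
      push_cast at h2 h4
      linarith
    · rintro _ ⟨k, h1, h2, rfl⟩ _ ⟨l, h3, h4, rfl⟩
      refine ⟨k + l, h1.add_odd h3, (abs_add_le k l).trans ?_, by push_cast; rfl⟩
      push_cast at h4 ⊢
      rw [pow_succ]
      linarith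

end Pool.Agent.Lib.MP_a01f70_lc.SP
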