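import Mathlib

/-! Short sums of powers of two that share a large factor with `2 ^ n - 1`. -/

set_option autoImplicit false

namespace Pool.Agent.Lib.MP_a01f70_lc.SP

open Finset

theorem dirichlet {n R : ℕ} (hn : 0 < n) (hR : 0 < R) (a : ℕ) :
    ∃ r u v : ℕ, 0 < r ∧ r ≤ R ∧ u ≤ n / R ∧ v ≤ n / R ∧ (n : ℤ) ∣ r * a + u - v := by
  obtain ⟨j, k, h1, h2, h3⟩ := Real.exists_int_int_abs_mul_sub_le ((a : ℝ) / n) hR
  have hn' : (0 : ℝ) < n := by exact_mod_cast hn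
  have hR' : (0 : ℝ) < R := by exact_mod_cast hR
  have h4 : |k * a - j * n| * R ≤ (n : ℤ) := by
    have e : (k : ℝ) * (a / n) - j = (k * a - j * n) / n := by field_simp
    rw [e, abs_div, abs_of_pos hn', div_le_div_iff₀ hn' (by positivity)] at h3
    have h5 : |(k : ℝ) * a - j * n| * R ≤ n := by nlinarith [abs_nonneg ((k : ℝ) * a - j * n)]
    exact_mod_cast h5
  obtain ⟨w, hw⟩ : ∃ w : ℤ, w = k * a - j * n := ⟨_, rfl⟩
  rw [← hw] at h4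
  have h5 : w.natAbs ≤ n / R := by
    rw [Nat.le_div_iff_mul_le hR]
    zify
    exact h4
  refine ⟨k.toNat, (-w).toNat, w.toNat, by omega, by omega, by omega, by omega, j, ?_⟩
  rw [Int.toNat_of_nonneg h1.le]
  have : ((-w).toNat : ℤ) - w.toNat = -w := by omega
  linear_combination this - hw

theorem odd_pow_inj {A B : ℤ} (hA : Odd A) (hB : Odd B) {x y : ℕ} (h : A * 2 ^ x = B * 2 ^ y) :
    x = y ∧ A = B := by
  have key : ∀ {A B : ℤ} {x y : ℕ}, Odd A → x < y → A * 2 ^ x ≠ B * 2 ^ y := by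
    intro A B x y hA hxy h
    obtain ⟨z, rfl⟩ := Nat.exists_eq_add_of_lt hxy
    have h1 : A = 2 * (B * 2 ^ z) := mul_right_cancel₀ (pow_ne_zero x two_ne_zero) (by
      rw [h]; ring)
    exact (Int.not_even_iff_odd.2 hA) ⟨B * 2 ^ z, by rw [h1]; ring⟩
  rcases lt_trichotomy x y with h1 | rfl | h1
  · exact absurd h (key hA h1)
  · exact ⟨rfl, mul_right_cancel₀ (pow_ne_zero x two_ne_zero) h⟩
  · exact absurd h.symm (key hB h1)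

theorem exists_odd {A : ℤ} (hA : A ≠ 0) : ∃ (B : ℤ) (p : ℕ), Odd B ∧ A = B * 2 ^ p := by
  obtain ⟨p, m, h1, h2⟩ := Nat.exists_eq_two_pow_mul_odd (Int.natAbs_ne_zero.2 hA)
  have h3 : (A.natAbs : ℤ) = 2 ^ p * m := by exact_mod_cast h2
  rcases Int.natAbs_eq A with h | h
  · exact ⟨m, p, h1.natCast, by rw [h, h3]; ring⟩
  · exact ⟨-m, p, h1.natCast.neg, by rw [h, h3]; ring⟩

theorem zero_of_small {g : ℕ} {A : ℤ} (h : (A : ZMod g) = 0) (hA : |A| < g) : A = 0 :=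
  Int.eq_zero_of_abs_lt_dvd ((ZMod.intCast_zmod_eq_zero_iff_dvd A g).1 h) hA

theorem ratpow {n g R H a p q : ℕ} (hn : 0 < n) (hR : 0 < R) (h2 : (2 : ZMod g) ^ n = 1) {A B : ℤ}
    (hA : Odd A) (hB : Odd B) (hAH : |A * 2 ^ q| ≤ H) (hBH : |B * 2 ^ p| ≤ H)
    (h : ((A * 2 ^ q : ℤ) : ZMod g) = ((B * 2 ^ p : ℤ) : ZMod g) * 2 ^ a)
    (hg : 2 * H ^ R * 2 ^ (n / R) < g) :
    |A| = |B| ∧ (n : ℤ) ∣ R.factorial * (a + p - q) := by
  obtain ⟨r, u, v, hr, hrR, hu, hv, hd⟩ := dirichlet hn hR a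
  have h3 : (2 : ZMod g) ^ (r * a + u) = 2 ^ v := by
    rw [pow_eq_pow_mod _ h2, pow_eq_pow_mod v h2]
    congr 1
    exact ((Nat.modEq_iff_dvd (n := n)).2 (by push_cast; exact hd)).symm
  have hH : 1 ≤ (H : ℤ) := le_trans (Int.one_le_abs (mul_ne_zero
    (by rintro rfl; simp at hA) (pow_ne_zero _ two_ne_zero))) hAH
  have hb : ∀ {C : ℤ} {x : ℕ}, |C| ≤ H → x ≤ n / R → |C ^ r * 2 ^ x| ≤ H ^ R * 2 ^ (n / R) := by
    intro C x hC hx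
    rw [abs_mul, abs_pow, abs_pow, abs_two]
    exact mul_le_mul ((pow_le_pow_left₀ (abs_nonneg _) hC r).trans (pow_le_pow_right₀ hH hrR))
      (pow_le_pow_right₀ one_le_two hx) (by positivity) (by positivity)
  have h4 : (A * 2 ^ q) ^ r * 2 ^ u - (B * 2 ^ p) ^ r * 2 ^ v = 0 := by
    refine zero_of_small (g := g) ?_ ((abs_sub _ _).trans_lt ?_)
    · rw [Int.cast_sub, Int.cast_mul, Int.cast_pow, h, Int.cast_mul _ (2 ^ v), Int.cast_pow]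
      push_cast
      rw [← h3]
      ring
    · have h5 : (2 * H ^ R * 2 ^ (n / R) : ℤ) < g := by exact_mod_cast hg
      linarith [hb hAH hu, hb hBH hv]
  obtain ⟨h5, h6⟩ := odd_pow_inj (hA.pow (n := r)) (hB.pow (n := r)) (x := q * r + u)
    (y := p * r + v) (by linear_combination h4)
  refine ⟨(pow_left_inj₀ (abs_nonneg _) (abs_nonneg _) hr.ne').1 (by
    rw [← abs_pow, ← abs_pow, h6]), ?_⟩
  obtain ⟨c, hc⟩ := Nat.dvd_factorial hr hrR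
  have h7 : ((q * r + u : ℕ) : ℤ) = (p * r + v : ℕ) := by rw [h5]
  push_cast at h7
  have h8 : (R.factorial : ℤ) * (a + p - q) = c * (r * a + u - v) := by
    rw [hc]
    push_cast
    linear_combination (-c) * h7
  rw [h8]
  exact hd.mul_left _

theorem three_aux {k₁ k₂ k₃ : ℤ} {l x y z : ℕ} (h₁ : Odd k₁) (h₂ : Odd k₂) (h₃ : Odd k₃)
    (b₁ : |k₁| ≤ 2 ^ l) (b₂ : |k₂| ≤ 2 ^ l) (b₃ : |k₃| ≤ 2 ^ l) (hy : x ≤ y) (hz : x ≤ z)
    (h : k₁ * 2 ^ x + k₂ * 2 ^ y + k₃ * 2 ^ z = 0) :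
    y ≤ x + l + 1 ∧ z ≤ x + l + 1 := by
  obtain ⟨y, rfl⟩ := Nat.exists_eq_add_of_le hy
  obtain ⟨z, rfl⟩ := Nat.exists_eq_add_of_le hz
  have h' : k₁ + k₂ * 2 ^ y + k₃ * 2 ^ z = 0 :=
    mul_right_cancel₀ (pow_ne_zero x two_ne_zero) (by linear_combination h)
  have key : ∀ {a b c : ℤ} {t : ℕ}, Odd c → |a| ≤ 2 ^ l → |b| ≤ 2 ^ l → a + b + c * 2 ^ t = 0 →
      t ≤ l + 1 := by
    intro a b c t hc ha hb e
    have e1 : 1 ≤ |c| := Int.one_le_abs (by rintro rfl; simp at hc)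
    have e2 : |c| * 2 ^ t = |a + b| := by
      rw [show a + b = -(c * 2 ^ t) by linear_combination e, abs_neg, abs_mul, abs_pow, abs_two]
    have e3 : (2 : ℤ) ^ t ≤ 2 ^ (l + 1) := by
      have := abs_add_le a b
      have : (0 : ℤ) < 2 ^ t := by positivity
      rw [pow_succ]
      nlinarith
    exact (pow_le_pow_iff_right₀ one_lt_two).1 e3
  rcases Nat.eq_zero_or_pos y with rfl | hy0
  · have := key h₃ b₁ b₂ (t := z) (by linear_combination h')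
    omega
  rcases Nat.eq_zero_or_pos z with rfl | hz0
  · have := key h₂ b₁ b₃ (t := y) (by linear_combination h')
    omega
  obtain ⟨y, rfl⟩ := Nat.exists_eq_add_of_lt hy0
  obtain ⟨z, rfl⟩ := Nat.exists_eq_add_of_lt hz0
  refine absurd ⟨-(k₂ * 2 ^ y + k₃ * 2 ^ z), ?_⟩ (Int.not_even_iff_odd.2 h₁)
  linear_combination h'

theorem three {k₁ k₂ k₃ : ℤ} {l x y z : ℕ} (h₁ : Odd k₁) (h₂ : Odd k₂) (h₃ : Odd k₃)
    (b₁ : |k₁| ≤ 2 ^ l) (b₂ : |k₂| ≤ 2 ^ l) (b₃ : |k₃| ≤ 2 ^ l)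
    (h : k₁ * 2 ^ x + k₂ * 2 ^ y + k₃ * 2 ^ z = 0) :
    |(y : ℤ) - x| ≤ (l + 1 : ℕ) ∧ |(z : ℤ) - x| ≤ (l + 1 : ℕ) := by
  simp only [abs_le]
  by_cases c1 : x ≤ y ∧ x ≤ z
  · have := three_aux h₁ h₂ h₃ b₁ b₂ b₃ c1.1 c1.2 h
    omega
  by_cases c2 : y ≤ z
  · have := three_aux h₂ h₁ h₃ b₂ b₁ b₃ (x := y) (y := x) (z := z) (by omega) c2
      (by linear_combination h)
    omega
  · have := three_aux h₃ h₁ h₂ b₃ b₁ b₂ (x := z) (y := x) (z := y) (by omega) (by omega)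
      (by linear_combination h)
    omega

/-- `a` is close to a multiple of `n / gcd (n, L)`. -/
def St (n L l a : ℕ) : Prop := ∃ α : ℤ, |α| ≤ l ∧ (n : ℤ) ∣ L * (a - α)

/-- An odd integer of size at most `2 ^ l`. -/
def Ok (l : ℕ) (k : ℤ) : Prop := Odd k ∧ |k| ≤ 2 ^ l

theorem trip {n g R l ρ a b s t s' t' : ℕ} (hn : 0 < n) (hR : 0 < R) (h2 : (2 : ZMod g) ^ n = 1)
    {k₁ k₂ k₃ j₁ j₂ j₃ : ℤ} (o₁ : Ok l k₁) (o₂ : Ok l k₂) (o₃ : Ok l k₃) (p₁ : Ok l j₁)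
    (p₂ : Ok l j₂) (p₃ : Ok l j₃) (hs : s ≤ ρ) (ht : t ≤ ρ) (hs' : s' ≤ ρ) (ht' : t' ≤ ρ)
    (hne : ¬(s = s' ∧ t = t'))
    (r₁ : ((k₁ + k₂ * 2 ^ (a + s) + k₃ * 2 ^ (b + t) : ℤ) : ZMod g) = 0)
    (r₂ : ((j₁ + j₂ * 2 ^ (a + s') + j₃ * 2 ^ (b + t') : ℤ) : ZMod g) = 0)
    (hg : 2 * (2 ^ (2 * l + 2 * ρ + 1)) ^ R * 2 ^ (n / R) < g) :
    St n R.factorial (l + 1) (a + s) ∧ St n R.factorial (l + 1) (b + t) := by
  have hb : ∀ {k j : ℤ} {x y : ℕ}, Ok l k → Ok l j → x ≤ ρ → y ≤ ρ →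
      |k * 2 ^ x * (j * 2 ^ y)| ≤ 2 ^ (2 * l + 2 * ρ) := by
    intro k j x y hk hj hx hy
    have e : ∀ {k : ℤ} {x : ℕ}, Ok l k → x ≤ ρ → |k * 2 ^ x| ≤ 2 ^ l * 2 ^ ρ := fun hk hx => by
      rw [abs_mul, abs_pow, abs_two]
      exact mul_le_mul hk.2 (pow_le_pow_right₀ one_le_two hx) (by positivity) (by positivity)
    rw [abs_mul]
    refine (mul_le_mul (e hk hx) (e hj hy) (abs_nonneg _) (by positivity)).trans (le_of_eq ?_)
    ring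
  obtain ⟨D₁, hD₁⟩ : ∃ D, D = k₂ * 2 ^ s * (j₃ * 2 ^ t') - k₃ * 2 ^ t * (j₂ * 2 ^ s') := ⟨_, rfl⟩
  obtain ⟨D₂, hD₂⟩ : ∃ D, D = k₃ * 2 ^ t * (j₁ * 2 ^ 0) - k₁ * 2 ^ 0 * (j₃ * 2 ^ t') := ⟨_, rfl⟩
  obtain ⟨D₃, hD₃⟩ : ∃ D, D = k₁ * 2 ^ 0 * (j₂ * 2 ^ s') - k₂ * 2 ^ s * (j₁ * 2 ^ 0) := ⟨_, rfl⟩
  have e2 : ((2 ^ (2 * l + 2 * ρ + 1) : ℕ) : ℤ) = 2 ^ (2 * l + 2 * ρ) + 2 ^ (2 * l + 2 * ρ) := by
    push_cast
    ring
  have b₁ : |D₁| ≤ (2 ^ (2 * l + 2 * ρ + 1) : ℕ) := by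
    rw [hD₁, e2]
    exact (abs_sub _ _).trans (add_le_add (hb o₂ p₃ hs ht') (hb o₃ p₂ ht hs'))
  have b₂ : |D₂| ≤ (2 ^ (2 * l + 2 * ρ + 1) : ℕ) := by
    rw [hD₂, e2]
    exact (abs_sub _ _).trans (add_le_add (hb o₃ p₁ ht ρ.zero_le) (hb o₁ p₃ ρ.zero_le ht'))
  have b₃ : |D₃| ≤ (2 ^ (2 * l + 2 * ρ + 1) : ℕ) := by
    rw [hD₃, e2]
    exact (abs_sub _ _).trans (add_le_add (hb o₁ p₂ ρ.zero_le hs') (hb o₂ p₁ hs ρ.zero_le))
  have hHg : ((2 ^ (2 * l + 2 * ρ + 1) : ℕ) : ℤ) < g := by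
    refine Int.ofNat_lt.2 (lt_of_le_of_lt ?_ hg)
    calc _ ≤ (2 ^ (2 * l + 2 * ρ + 1)) ^ R := Nat.le_self_pow hR.ne' _
      _ ≤ 2 * (2 ^ (2 * l + 2 * ρ + 1)) ^ R := by omega
      _ ≤ _ := Nat.le_mul_of_pos_right _ (by positivity)
  have c₂ : (D₂ : ZMod g) = D₁ * 2 ^ a := by
    rw [hD₁, hD₂]
    push_cast at r₁ r₂ ⊢
    linear_combination (k₃ * 2 ^ t : ZMod g) * r₂ - (j₃ * 2 ^ t' : ZMod g) * r₁
  have c₃ : (D₃ : ZMod g) = D₁ * 2 ^ b := by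
    rw [hD₁, hD₃]
    push_cast at r₁ r₂ ⊢
    linear_combination (j₂ * 2 ^ s' : ZMod g) * r₁ - (k₂ * 2 ^ s : ZMod g) * r₂
  have hu : IsUnit (2 : ZMod g) := IsUnit.of_pow_eq_one h2 hn.ne'
  have n₁ : D₁ ≠ 0 := by
    rintro rfl
    have z₂ := zero_of_small (by simpa using c₂) (b₂.trans_lt hHg)
    have z₃ := zero_of_small (by simpa using c₃) (b₃.trans_lt hHg)
    refine hne ⟨(odd_pow_inj (o₂.1.mul p₁.1) (o₁.1.mul p₂.1) ?_).1,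
      (odd_pow_inj (o₃.1.mul p₁.1) (o₁.1.mul p₃.1) ?_).1⟩
    · linear_combination hD₃ - z₃
    · linear_combination z₂ - hD₂
  have nz : ∀ {D : ℤ} {x : ℕ}, (D : ZMod g) = D₁ * 2 ^ x → D ≠ 0 := by
    rintro _ x h rfl
    refine n₁ (zero_of_small ?_ (b₁.trans_lt hHg))
    exact (hu.pow x).mul_left_eq_zero.1 (by simpa using h.symm)
  obtain ⟨E₁, q₁, e₁, rfl⟩ := exists_odd n₁
  obtain ⟨E₂, q₂, e₂, rfl⟩ := exists_odd (nz c₂)
  obtain ⟨E₃, q₃, e₃, rfl⟩ := exists_odd (nz c₃)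
  obtain ⟨a₂, d₂⟩ := ratpow hn hR h2 e₂ e₁ b₂ b₁ c₂ hg
  obtain ⟨a₃, d₃⟩ := ratpow hn hR h2 e₃ e₁ b₃ b₁ c₃ hg
  have sgn : ∀ {k E : ℤ}, Ok l k → |E| = |E₁| → ∃ k', Ok l k' ∧ k * E = k' * E₁ := by
    intro k E hk hE
    rcases abs_eq_abs.1 hE with rfl | rfl
    · exact ⟨k, hk, rfl⟩
    · exact ⟨-k, ⟨hk.1.neg, by simpa using hk.2⟩, by ring⟩
  obtain ⟨k₂', o₂', f₂⟩ := sgn o₂ a₂
  obtain ⟨k₃', o₃', f₃⟩ := sgn o₃ a₃
  have hE : E₁ ≠ 0 := by rintro rfl; simp at e₁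
  obtain ⟨g₂, g₃⟩ := three o₁.1 o₂'.1 o₃'.1 o₁.2 o₂'.2 o₃'.2 (x := q₁) (y := s + q₂) (z := t + q₃)
    (mul_right_cancel₀ hE (by
      linear_combination k₁ * hD₁ + k₂ * 2 ^ s * hD₂ + k₃ * 2 ^ t * hD₃ -
        2 ^ (s + q₂) * f₂ - 2 ^ (t + q₃) * f₃))
  refine ⟨⟨_, g₂, ?_⟩, ⟨_, g₃, ?_⟩⟩
  · convert d₂ using 2
    push_cast
    ring
  · convert d₃ using 2
    push_cast
    ring

theorem card_fiber {M : ℕ} (hM : 0 < M) (η c : ℤ) :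
    ((range M).filter fun x : ℕ => (M : ℤ) ∣ η * x - c).card ≤ Int.gcd η M := by
  have hg : 0 < Int.gcd η M := Int.gcd_pos_of_ne_zero_right _ (by exact_mod_cast hM.ne')
  obtain ⟨η', M', hc, h1, h2⟩ := Int.exists_gcd_one hg
  generalize Int.gcd η M = g at hg h1 h2
  have hg' : (0 : ℤ) < g := by exact_mod_cast hg
  have hM' : 0 < M' := (mul_pos_iff_of_pos_right hg').1 (h2 ▸ by exact_mod_cast hM)
  lift M' to ℕ using hM'.le
  have h3 : M = M' * g := by exact_mod_cast h2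
  have h4 : 0 < M' := by exact_mod_cast hM'
  refine le_trans (card_le_card_of_injOn (t := range g) (fun x => x / M') (fun x hx => ?_)
    fun x hx y hy h => ?_) (card_range g).le
  · have := mem_range.1 (mem_filter.1 hx).1
    exact mem_coe.2 (mem_range.2 ((Nat.div_lt_iff_lt_mul h4).2 (by rw [mul_comm, ← h3]; exact this)))
  · have h5 := (mem_filter.1 hy).2.sub (mem_filter.1 hx).2
    rw [h2, h1, show η' * g * y - c - (η' * g * x - c) = η' * (y - x) * g by ring,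
      mul_dvd_mul_iff_right hg'.ne'] at h5
    have h6 : x ≡ y [MOD M'] := Nat.modEq_iff_dvd.2
      ((Int.isCoprime_iff_gcd_eq_one.2 hc).symm.dvd_of_dvd_mul_left h5)
    rw [← Nat.div_add_mod x M', ← Nat.div_add_mod y M', show x / M' = y / M' from h, h6]

open Classical in
theorem card_St {n L : ℕ} (hn : 0 < n) (hL : 0 < L) (l : ℕ) :
    ((range n).filter (St n L l)).card ≤ (2 * l + 1) * L := by
  have h1 : (range n).filter (St n L l) ⊆ (Icc (-(l : ℤ)) l).biUnion fun α =>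
      (range n).filter fun x : ℕ => (n : ℤ) ∣ L * x - L * α := by
    intro x hx
    obtain ⟨h, α, h2, h3⟩ := mem_filter.1 hx
    exact mem_biUnion.2 ⟨α, mem_Icc.2 (abs_le.1 h2), mem_filter.2 ⟨h, by rwa [← mul_sub]⟩⟩
  refine (card_le_card h1).trans ((card_biUnion_le_card_mul _ _ L fun α _ =>
    (card_fiber hn _ _).trans ?_).trans (le_of_eq ?_))
  · rw [Int.gcd_natCast_natCast]
    exact Nat.gcd_le_left _ hL
  · rw [Int.card_Icc]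
    congr 1
    omega

theorem prod_le_lcm {ι : Type} [DecidableEq ι] (S : Finset ι) (g : ι → ℕ) {G : ℕ} (hG : 0 < G)
    (h0 : ∀ i ∈ S, 0 < g i) (h : ∀ i ∈ S, ∀ j ∈ S, i ≠ j → Nat.gcd (g i) (g j) ≤ G) :
    ∏ i ∈ S, g i ≤ S.lcm g * G ^ (S.card ^ 2) := by
  have key : ∀ (x : ℕ) (S : Finset ι), Nat.gcd x (∏ j ∈ S, g j) ∣ ∏ j ∈ S, Nat.gcd x (g j) := by
    intro x S
    induction S using Finset.induction_on with
    | empty => simp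
    | insert i S hi ih =>
      rw [prod_insert hi, prod_insert hi]
      exact (gcd_mul_dvd_mul_gcd x _ _).trans (mul_dvd_mul_left _ ih)
  induction S using Finset.induction_on with
  | empty => simp
  | insert i S hi ih =>
    have h1 := ih (fun j hj => h0 j (mem_insert_of_mem hj))
      fun a ha b hb => h a (mem_insert_of_mem ha) b (mem_insert_of_mem hb)
    have h2 : Nat.gcd (g i) (S.lcm g) ≤ G ^ S.card := by
      refine (Nat.le_of_dvd (prod_pos fun j hj => Nat.gcd_pos_of_pos_left _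
        (h0 i (mem_insert_self _ _))) ((Nat.gcd_dvd_gcd_of_dvd_right _
          (Finset.lcm_dvd fun j hj => dvd_prod_of_mem g hj)).trans (key _ S))).trans ?_
      exact prod_le_pow_card _ _ _ fun j hj => h i (mem_insert_self _ _) j (mem_insert_of_mem hj)
        fun e => hi (e ▸ hj)
    rw [prod_insert hi, lcm_insert, card_insert_of_notMem hi, lcm_eq_nat_lcm]
    calc _ ≤ g i * (S.lcm g * G ^ (S.card ^ 2)) := Nat.mul_le_mul_left _ h1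
      _ = Nat.lcm (g i) (S.lcm g) * (Nat.gcd (g i) (S.lcm g) * G ^ (S.card ^ 2)) := by
          rw [← mul_assoc, ← Nat.gcd_mul_lcm (g i)]
          ring
      _ ≤ _ := by
          refine Nat.mul_le_mul_left _ ((Nat.mul_le_mul_right _ h2).trans ?_)
          rw [← pow_add]
          exact Nat.pow_le_pow_right hG (by nlinarith)

/-- The integer has a large common factor with `2 ^ n - 1`. -/
def Big (n h : ℕ) (η : ℤ) : Prop := 4 ^ n < Int.gcd η (2 ^ n - 1 : ℕ) ^ h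

/-- Exceptional pairs of shifts. -/
def Exc (n h l : ℕ) (p : ℕ × ℕ) : Prop :=
  ∃ k₁ k₂ k₃ : ℤ, Ok l k₁ ∧ Ok l k₂ ∧ Ok l k₃ ∧ Big n h (k₁ + k₂ * 2 ^ p.1 + k₃ * 2 ^ p.2)

theorem two_pow_eq {n g : ℕ} (h : g ∣ 2 ^ n - 1) : (2 : ZMod g) ^ n = 1 := by
  have h1 := (ZMod.natCast_eq_zero_iff _ g).2 h
  rw [Nat.cast_sub Nat.one_le_two_pow, sub_eq_zero] at h1
  exact_mod_cast h1

theorem gcd_dvd_nat (η : ℤ) (M : ℕ) : Int.gcd η M ∣ M := by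
  exact_mod_cast Int.gcd_dvd_right η M

open Classical in
theorem card_Exc {n h l R ρ : ℕ} (hn : 0 < n) (hh : 0 < h) (hR : 0 < R) (hρ : 0 < ρ)
    (hG : (2 * (2 ^ (2 * l + 2 * ρ + 1)) ^ R * 2 ^ (n / R)) ^ (h ^ 2) ≤ 2 ^ n) :
    ((range n ×ˢ range n).filter (Exc n h l)).card ≤
      ((2 * (l + 1) + 1) * R.factorial) ^ 2 + h * (n / ρ + 1) ^ 2 := by
  obtain ⟨G, hG'⟩ : ∃ G, G = 2 * (2 ^ (2 * l + 2 * ρ + 1)) ^ R * 2 ^ (n / R) := ⟨_, rfl⟩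
  rw [← hG'] at hG
  have hN : 0 < 2 ^ n - 1 := Nat.sub_pos_of_lt (Nat.one_lt_two_pow hn.ne')
  obtain ⟨T, hT⟩ : ∃ T, T = (range n).filter (St n R.factorial (l + 1)) := ⟨_, rfl⟩
  have hT' : T.card ≤ (2 * (l + 1) + 1) * R.factorial := hT ▸ card_St hn R.factorial_pos _
  rw [← card_sdiff_add_card_inter _ (T ×ˢ T), add_comm]
  refine add_le_add ((card_le_card inter_subset_right).trans ?_) ?_
  · rw [card_product, sq]
    exact Nat.mul_le_mul hT' hT'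
  refine (card_le_mul_card_image_of_maps_to (f := fun p : ℕ × ℕ => (p.1 / ρ, p.2 / ρ))
    (t := range (n / ρ + 1) ×ˢ range (n / ρ + 1)) (fun p hp => ?_) h fun c _ => ?_).trans
    (by rw [card_product, card_range, sq])
  · obtain ⟨h1, h2⟩ := mem_product.1 (mem_filter.1 (mem_sdiff.1 hp).1).1
    exact mem_product.2 ⟨mem_range.2 (Nat.lt_succ_of_le (Nat.div_le_div_right (mem_range.1 h1).le)),
      mem_range.2 (Nat.lt_succ_of_le (Nat.div_le_div_right (mem_range.1 h2).le))⟩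
  by_contra hc
  obtain ⟨S, hS, hSc⟩ := exists_subset_card_eq (not_le.1 hc).le
  have hE : ∀ p ∈ S, Exc n h l p := fun p hp =>
    (mem_filter.1 (mem_sdiff.1 (mem_filter.1 (hS hp)).1).1).2
  choose! k₁ k₂ k₃ o₁ o₂ o₃ hB using hE
  obtain ⟨g, hg⟩ : ∃ g : ℕ × ℕ → ℕ, g = fun p =>
    Int.gcd (k₁ p + k₂ p * 2 ^ p.1 + k₃ p * 2 ^ p.2) (2 ^ n - 1 : ℕ) := ⟨_, rfl⟩
  have hgN : ∀ p, g p ∣ 2 ^ n - 1 := fun p => hg ▸ gcd_dvd_nat _ _
  have hg0 : ∀ (p) {x : ℕ}, x ∣ g p →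
      ((k₁ p + k₂ p * 2 ^ p.1 + k₃ p * 2 ^ p.2 : ℤ) : ZMod x) = 0 := fun p x hx =>
    (ZMod.intCast_zmod_eq_zero_iff_dvd _ x).2
      ((Int.natCast_dvd_natCast.2 hx).trans (hg ▸ Int.gcd_dvd_left _ _))
  have h1 := prod_le_lcm S g (G := G) (by rw [hG']; positivity)
    (fun p _ => Nat.pos_of_dvd_of_pos (hgN p) hN) fun p hp p' hp' hne => by
      by_contra hlt
      obtain ⟨m1, m2⟩ := mem_filter.1 (hS hp)
      obtain ⟨e1, e2⟩ := Prod.ext_iff.1 (m2.trans (mem_filter.1 (hS hp')).2.symm)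
      have r₁ := hg0 p (Nat.gcd_dvd_left (g p) (g p'))
      have r₂ := hg0 p' (Nat.gcd_dvd_right (g p) (g p'))
      dsimp only at e1 e2
      rw [← Nat.div_add_mod p.1 ρ, ← Nat.div_add_mod p.2 ρ] at r₁
      rw [← Nat.div_add_mod p'.1 ρ, ← Nat.div_add_mod p'.2 ρ, ← e1, ← e2] at r₂
      have := trip hn hR (two_pow_eq ((Nat.gcd_dvd_left (g p) (g p')).trans (hgN p))) (o₁ p hp)
        (o₂ p hp) (o₃ p hp) (o₁ p' hp') (o₂ p' hp') (o₃ p' hp') (Nat.mod_lt _ hρ).le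
        (Nat.mod_lt _ hρ).le (Nat.mod_lt _ hρ).le (Nat.mod_lt _ hρ).le (fun e => hne (Prod.ext
          (by rw [← Nat.div_add_mod p.1 ρ, ← Nat.div_add_mod p'.1 ρ, e1, e.1])
          (by rw [← Nat.div_add_mod p.2 ρ, ← Nat.div_add_mod p'.2 ρ, e2, e.2]))) r₁ r₂
        (hG' ▸ not_le.1 hlt)
      rw [Nat.div_add_mod, Nat.div_add_mod] at this
      obtain ⟨m3, m4⟩ := mem_sdiff.1 m1
      obtain ⟨m5, m6⟩ := mem_product.1 (mem_filter.1 m3).1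
      exact m4 (mem_product.2 ⟨hT ▸ mem_filter.2 ⟨m5, this.1⟩, hT ▸ mem_filter.2 ⟨m6, this.2⟩⟩)
  have h2 : S.lcm g ≤ 2 ^ n := (Nat.le_of_dvd hN (Finset.lcm_dvd fun p _ => hgN p)).trans
    (Nat.sub_le _ _)
  have h3 : ∏ p ∈ S, g p ≤ 4 ^ n := by
    rw [hSc] at h1
    exact h1.trans ((Nat.mul_le_mul h2 hG).trans (mul_pow 2 2 n).ge)
  have h4 : ∏ _p ∈ S, 4 ^ n < ∏ p ∈ S, g p ^ h :=
    prod_lt_prod_of_nonempty (fun _ _ => by positivity) (fun p hp => hg ▸ hB p hp)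
      (card_pos.1 (hSc ▸ hh))
  rw [prod_const, hSc, prod_pow] at h4
  exact absurd (Nat.pow_le_pow_left h3 h) (not_le.2 h4)

end Pool.Agent.Lib.MP_a01f70_lc.SP
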