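import Pool.Agent.Lib.MP_a01f70_lc.SP.A
import Pool.Agent.Lib.MP_a01f70_lc.SP.B

/-! Second and third moments of the digit sum for a law with few large Fourier coefficients. -/

set_option autoImplicit false
set_option linter.unusedSectionVars false

namespace Pool.Agent.Lib.MP_a01f70_lc.SP

open Finset ZMod

variable {N : ℕ} [NeZero N] {Ω : Type} [Fintype Ω]

/-- Twice the centred binary digit sum. -/
def XX (n : ℕ) (u : ZMod N) : ℝ := ∑ i ∈ range n, (sg (2 ^ i * u) : ℝ)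

theorem shift {M : Type} [AddCommGroup M] {β : ZMod N} {e : ℕ} (h : β ^ e = 1) (f : ZMod N → M)
    (a : ℕ) (u : ZMod N) :
    ∑ i ∈ range e, f (β ^ i * (β ^ a * u)) = ∑ i ∈ range e, f (β ^ i * u) := by
  induction a with
  | zero => simp
  | succ a ih =>
    have h1 := sum_range_succ' (fun i => f (β ^ i * (β ^ a * u))) e
    rw [sum_range_succ, h, pow_zero, add_left_inj, ih] at h1
    rw [h1]
    exact sum_congr rfl fun i _ => by congr 1; ring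

theorem pow_comm' (a b : ℕ) (u : ZMod N) : (2 : ZMod N) ^ a * (2 ^ b * u) = 2 ^ b * (2 ^ a * u) :=
  mul_left_comm _ _ _

theorem var_main {m e : ℕ} (he : Odd e) (h2 : (2 : ZMod N) ^ (m * e) = 1) (u : ZMod N) :
    (m : ℝ) ≤ ∑ a ∈ range (m * e), (sg (2 ^ a * u) : ℝ) *
      ∑ j ∈ range e, (sg ((2 ^ m) ^ j * (2 ^ a * u)) : ℝ) := by
  obtain ⟨Y, hY⟩ : ∃ Y : ZMod N → ℝ, Y = fun v => ∑ j ∈ range e, (sg ((2 ^ m) ^ j * v) : ℝ) :=
    ⟨_, rfl⟩
  have h1 : ∀ v, 1 ≤ Y v ^ 2 := by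
    intro v
    have h3 : Odd (∑ j ∈ range e, sg ((2 ^ m) ^ j * v)) := by
      have h5 : (2 : ℤ) ∣ ∑ j ∈ range e, (sg ((2 ^ m) ^ j * v) - 1) := dvd_sum fun j _ => by
        rcases sg_cases ((2 ^ m) ^ j * v) with h | h <;> simp [h]
      rw [sum_sub_distrib, sum_const, card_range, nsmul_eq_mul, mul_one] at h5
      obtain ⟨k, hk⟩ := he
      exact Int.odd_iff.2 (by omega)
    have h4 : 1 ≤ (∑ j ∈ range e, sg ((2 ^ m) ^ j * v)) ^ 2 :=
      (one_le_sq_iff_one_le_abs _).2 (Int.one_le_abs fun h0 => by simp [h0] at h3)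
    have h5 := (Int.cast_le (R := ℝ)).2 h4
    rw [Int.cast_pow, Int.cast_sum, Int.cast_one] at h5
    rw [hY]
    exact h5
  have h3 : ∀ j v, Y ((2 ^ m) ^ j * v) = Y v := fun j v => by
    rw [hY]
    exact shift (by rw [← pow_mul, h2]) (fun x => (sg x : ℝ)) j v
  have h4 : ∀ j, ∑ a ∈ range (m * e), (sg (2 ^ a * u) : ℝ) * Y (2 ^ a * u) =
      ∑ a ∈ range (m * e), (sg ((2 ^ m) ^ j * (2 ^ a * u)) : ℝ) * Y (2 ^ a * u) := by
    intro j
    rw [← shift h2 (fun x => (sg x : ℝ) * Y x) (m * j) u]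
    exact sum_congr rfl fun a _ => by rw [pow_comm', pow_mul, h3]
  have h5 : ∑ _j ∈ range e, ∑ a ∈ range (m * e), (sg (2 ^ a * u) : ℝ) * Y (2 ^ a * u) =
      ∑ a ∈ range (m * e), Y (2 ^ a * u) ^ 2 := by
    rw [sum_congr rfl fun j _ => h4 j, sum_comm]
    exact sum_congr rfl fun a _ => by rw [← sum_mul, sq, hY]
  have h6 := sum_le_sum fun a (_ : a ∈ range (m * e)) => h1 (2 ^ a * u)
  rw [← h5, sum_const, sum_const, card_range, card_range, nsmul_eq_mul, nsmul_eq_mul, mul_one,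
    Nat.cast_mul, mul_comm, hY] at h6
  exact le_of_mul_le_mul_left h6 (by exact_mod_cast he.pos)

theorem sum_dvd {m e : ℕ} (hm : 0 < m) (g : ℕ → ℝ) :
    ∑ t ∈ (range (m * e)).filter (m ∣ ·), g t = ∑ j ∈ range e, g (m * j) := by
  refine (sum_nbij' (fun j => m * j) (fun t => t / m) (fun j hj => ?_) (fun t ht => ?_)
    (fun j _ => Nat.mul_div_cancel_left _ hm) (fun t ht => Nat.mul_div_cancel' (mem_filter.1 ht).2)
    fun _ _ => rfl).symm
  · exact mem_filter.2 ⟨mem_range.2 ((Nat.mul_lt_mul_left hm).2 (mem_range.1 hj)), dvd_mul_right _ _⟩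
  · exact mem_range.2 (Nat.div_lt_of_lt_mul (mem_range.1 (mem_filter.1 ht).1))

theorem moments {m e : ℕ} (hm : 0 < m) (he : Odd e) (h2 : (2 : ZMod N) ^ (m * e) = 1)
    [Nonempty Ω] (U : Ω → ZMod N) {W τ₂ τ₃ : ℝ} (hW : 0 ≤ W) (t₂ : 0 ≤ τ₂) (t₃ : 0 ≤ τ₃)
    (hX : ∀ ω, XX (m * e) (U ω) ≤ W) (E : Finset (ℕ × ℕ))
    (p₂ : ∀ a, ∀ t < m * e, ¬m ∣ t →
      |∑ ω, (sg (2 ^ a * U ω) : ℝ) * sg (2 ^ t * (2 ^ a * U ω))| ≤ τ₂ * Fintype.card Ω)
    (p₃ : ∀ a, ∀ s < m * e, ∀ t < m * e, (s, t) ∉ E →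
      |∑ ω, (sg (2 ^ a * U ω) : ℝ) * sg (2 ^ s * (2 ^ a * U ω)) * sg (2 ^ t * (2 ^ a * U ω))| ≤
        τ₃ * Fintype.card Ω) :
    0 ≤ 4 * W ^ 3 - 3 * W * (m - (m * e : ℕ) ^ 2 * τ₂) +
      (m * e : ℕ) * (E.card + (m * e : ℕ) ^ 2 * τ₃) := by
  obtain ⟨c, hc⟩ : ∃ c : ℝ, c = Fintype.card Ω := ⟨_, rfl⟩
  rw [← hc] at p₂ p₃
  have hc0 : 0 < c := by rw [hc]; exact_mod_cast Fintype.card_pos
  have hs : ∀ a u, XX (m * e) (2 ^ a * u : ZMod N) = XX (m * e) u := fun a u =>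
    shift h2 (fun x => (sg x : ℝ)) a u
  have e2 : ∀ u : ZMod N, m + ∑ a ∈ range (m * e), ∑ t ∈ (range (m * e)).filter (¬m ∣ ·),
      (sg (2 ^ a * u) : ℝ) * sg (2 ^ t * (2 ^ a * u)) ≤ XX (m * e) u ^ 2 := by
    intro u
    refine (add_le_add_left (var_main he h2 u) _).trans (le_of_eq ?_)
    rw [sq, ← sum_add_distrib]
    nth_rewrite 1 [XX]
    rw [sum_mul]
    refine sum_congr rfl fun a _ => ?_
    rw [← hs a, XX, ← sum_filter_add_sum_filter_not (range (m * e)) (m ∣ ·), sum_dvd hm, mul_add, mul_sum _ _]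
    simp only [pow_mul, mul_sum]
  have e3 : ∀ u : ZMod N, XX (m * e) u ^ 3 = ∑ a ∈ range (m * e),
      ∑ p ∈ range (m * e) ×ˢ range (m * e),
        (sg (2 ^ a * u) : ℝ) * sg (2 ^ p.1 * (2 ^ a * u)) * sg (2 ^ p.2 * (2 ^ a * u)) := by
    intro u
    rw [pow_succ']
    nth_rewrite 1 [XX]
    rw [sum_mul]
    refine sum_congr rfl fun a _ => ?_
    rw [← hs a, sq, XX, sum_mul_sum, sum_product]
    simp only [mul_sum, mul_assoc]
  generalize m * e = n at *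
  have b2 : m * c - n ^ 2 * τ₂ * c ≤ ∑ ω, XX n (U ω) ^ 2 := by
    refine le_trans ?_ (sum_le_sum fun ω _ => e2 (U ω))
    rw [sum_add_distrib, sum_const, card_univ, nsmul_eq_mul, ← hc, sum_comm, mul_comm c,
      sub_eq_add_neg, add_le_add_iff_left]
    refine le_trans (le_of_eq ?_) (sum_le_sum (f := fun _ => -(n * (τ₂ * c))) fun a _ => ?_)
    · rw [sum_const, card_range, nsmul_eq_mul]
      ring
    · rw [sum_comm]
      refine le_trans ?_ (sum_le_sum (f := fun _ => -(τ₂ * c)) fun t ht =>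
        (abs_le.1 (p₂ a t (mem_range.1 (mem_filter.1 ht).1) (mem_filter.1 ht).2)).1)
      rw [sum_const, nsmul_eq_mul, mul_neg, neg_le_neg_iff]
      refine mul_le_mul_of_nonneg_right ?_ (by positivity)
      exact_mod_cast (card_filter_le _ _).trans (card_range n).le
  have b3 : -(n * (E.card + n ^ 2 * τ₃) * c) ≤ ∑ ω, XX n (U ω) ^ 3 := by
    simp only [e3]
    rw [sum_comm]
    refine le_trans (le_of_eq ?_) (sum_le_sum (f := fun _ => -((E.card + n ^ 2 * τ₃) * c))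
      fun a _ => ?_)
    · rw [sum_const, card_range, nsmul_eq_mul]
      ring
    · rw [sum_comm]
      refine le_trans ?_ (sum_le_sum (f := fun p => -((if p ∈ E then 1 else 0) * c + τ₃ * c))
        fun p hp => ?_)
      · rw [sum_neg_distrib, neg_le_neg_iff, sum_add_distrib, ← sum_mul, sum_boole, sum_const,
          card_product, card_range, nsmul_eq_mul, add_mul]
        refine add_le_add (mul_le_mul_of_nonneg_right ?_ hc0.le) (le_of_eq (by push_cast; ring))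
        exact_mod_cast card_le_card fun p hp => (mem_filter.1 hp).2
      · split_ifs with h
        · refine le_trans ?_ (sum_le_sum (f := fun _ => -1) fun ω _ => neg_le_of_abs_le ?_)
          · rw [sum_const, card_univ, nsmul_eq_mul, ← hc]
            nlinarith
          · rw [abs_mul, abs_mul, abs_sg, abs_sg, abs_sg]
            norm_num
        · rw [zero_mul, zero_add]
          exact (abs_le.1 (p₃ a _ (mem_range.1 (mem_product.1 hp).1) _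
            (mem_range.1 (mem_product.1 hp).2) h)).1
  have b0 : 0 ≤ ∑ ω, (4 * W ^ 3 - 3 * W * XX n (U ω) ^ 2 - XX n (U ω) ^ 3) :=
    sum_nonneg fun ω _ => by
      nlinarith [mul_nonneg (sub_nonneg.2 (hX ω)) (sq_nonneg (XX n (U ω) + 2 * W))]
  rw [sum_sub_distrib, sum_sub_distrib, sum_const, card_univ, nsmul_eq_mul, ← hc, ← mul_sum] at b0
  refine le_of_mul_le_mul_right ?_ hc0
  nlinarith [mul_le_mul_of_nonneg_left b2 hW]

theorem Sp.test' (U : Ω → ZMod N) {A : Finset (ZMod N)} {f : ZMod N → ℂ} (hf : Sp A f)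
    (h1 : ∀ x, ‖f x‖ ≤ 1) {ε : ℝ} (hε : 0 ≤ ε) (h : ∀ η ∈ A, ‖∑ ω, chr η (U ω)‖ ≤ ε) :
    ‖∑ ω, f (U ω)‖ ≤ (A.card + 1) * ε := by
  have h2 := hf.test U h1 hε fun η hη _ => h η hη
  have h3 : ‖co f 0 * Fintype.card Ω‖ ≤ ε := by
    by_cases h0 : (0 : ZMod N) ∈ A
    · rw [norm_mul]
      refine (mul_le_of_le_one_left (norm_nonneg _) (co_le h1 0)).trans ?_
      simpa [chr] using h 0 h0
    · simpa [hf.co_zero h0] using hε
  linarith [norm_le_norm_add_norm_sub' (∑ ω, f (U ω)) (co f 0 * Fintype.card Ω)]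

/-- All short sums without a large common factor have small Fourier coefficients. -/
def Hyp (n h l : ℕ) (U : Ω → ZMod N) (ε : ℝ) : Prop :=
  ∀ a, ∀ s < n, ∀ t < n, ∀ k₁ k₂ k₃ : ℤ, |k₁| ≤ 2 ^ (l + 1) → |k₂| ≤ 2 ^ (l + 1) →
    |k₃| ≤ 2 ^ (l + 1) → ¬Big n h (k₁ + k₂ * 2 ^ s + k₃ * 2 ^ t) →
    ‖∑ ω, chr ((k₁ + k₂ * 2 ^ s + k₃ * 2 ^ t : ℤ) : ZMod N) (2 ^ a * U ω)‖ ≤ ε * Fintype.card Ω

variable {n h l J : ℕ} {U : Ω → ZMod N} {ε : ℝ}

theorem card_img {ι : Type} (S : Finset ι) (f : ι → ZMod N) {b : ℝ} (h : (S.card : ℝ) ≤ b) :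
    ((S.image f).card : ℝ) ≤ b := le_trans (by exact_mod_cast card_image_le) h

theorem card_Icc' (l : ℕ) : ((Icc (-2 ^ l : ℤ) (2 ^ l)).card : ℝ) ≤ 3 * 2 ^ l := by
  have h0 : (1 : ℤ) ≤ 2 ^ l := one_le_pow₀ one_le_two
  have h : ((Icc (-2 ^ l : ℤ) (2 ^ l)).card : ℤ) ≤ 3 * 2 ^ l := by
    rw [Int.card_Icc_of_le _ _ (by linarith)]
    linarith
  exact_mod_cast h

theorem norm_qq (J : ℕ) (x : ZMod N) : ‖(qq J x : ℂ)‖ ≤ 1 := by
  rw [Complex.norm_real]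
  exact abs_qq J x

theorem mom1 (H : Hyp n h l U ε) (hn : 0 < n) (hε : 0 ≤ ε) (hJ : 3 ^ J ≤ 2 ^ l)
    (hs : (2 ^ (l + 1)) ^ h ≤ 4 ^ n) {τ : ℝ} (hτ : ∑ x : ZMod N, (1 - qq J x ^ 2) ≤ τ * N) (a : ℕ) :
    ∑ ω, |sg (2 ^ a * U ω) - qq J (2 ^ a * U ω)| ≤ (τ + 6 * 2 ^ l * ε) * Fintype.card Ω := by
  classical
  have hN : (0 : ℝ) < N := Nat.cast_pos.2 (NeZero.pos N)
  have hJ' : ((3 ^ J : ℕ) : ℤ) ≤ 2 ^ l := by exact_mod_cast hJ
  have h1 := ((sp_qq (N := N) J).mul (sp_qq J)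
    (C := ((Icc (-2 ^ (l + 1) : ℤ) (2 ^ (l + 1))).image (Int.cast : ℤ → ZMod N) : Finset _)) (by
      rintro _ ⟨k, -, h2, rfl⟩ _ ⟨k', -, h4, rfl⟩
      refine mem_coe.2 (mem_image.2 ⟨k + k', mem_Icc.2 (abs_le.1 ((abs_add_le k k').trans ?_)),
        by push_cast; rfl⟩)
      rw [pow_succ]
      linarith)).test (fun ω => 2 ^ a * U ω) (fun x => by
      rw [Pi.mul_apply, norm_mul]
      exact mul_le_one₀ (norm_qq J x) (norm_nonneg _) (norm_qq J x))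
    (ε := ε * Fintype.card Ω) (by positivity) fun η hη h0 => by
      obtain ⟨k, hk, rfl⟩ := mem_image.1 hη
      have hk' := abs_le.2 (mem_Icc.1 hk)
      have := H a 0 hn 0 hn k 0 0 hk' (by positivity) (by positivity) (by
        simp only [Big, zero_mul, add_zero, not_lt]
        refine le_trans (Nat.pow_le_pow_left ?_ h) hs
        refine (Int.gcd_le_natAbs_left _ (by rintro rfl; simp at h0)).trans ?_
        zify
        exact hk')
      simpa using this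
  have h2 : ∑ ω, (((fun x : ZMod N => (qq J x : ℂ)) * fun x : ZMod N => (qq J x : ℂ)) (2 ^ a * U ω)) -
      co ((fun x : ZMod N => (qq J x : ℂ)) * fun x : ZMod N => (qq J x : ℂ)) 0 * Fintype.card Ω =
      ((∑ ω, qq J (2 ^ a * U ω) ^ 2 - (N : ℝ)⁻¹ * (∑ x : ZMod N, qq J x ^ 2) * Fintype.card Ω : ℝ) :
        ℂ) := by
    simp [co, sq]
  rw [h2, Complex.norm_real, Real.norm_eq_abs] at h1
  have h3 := (abs_le.1 (h1.trans (mul_le_mul_of_nonneg_right (card_img _ _ (card_Icc' (l + 1)))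
    (by positivity)))).1
  have h4 : 1 - τ ≤ (N : ℝ)⁻¹ * ∑ x : ZMod N, qq J x ^ 2 := by
    rw [sum_sub_distrib, sum_const, card_univ, ZMod.card, nsmul_eq_mul] at hτ
    rw [le_inv_mul_iff₀ hN]
    linarith
  have h5 := mul_le_mul_of_nonneg_right h4 (Nat.cast_nonneg (α := ℝ) (Fintype.card Ω))
  refine (sum_le_sum fun ω _ => sg_sub_qq J _).trans ?_
  rw [sum_sub_distrib, sum_const, card_univ, nsmul_eq_mul]
  rw [pow_succ] at h3
  linarith

theorem abs_mul_sub {a b a' b' : ℝ} (h : |b| ≤ 1) (h' : |a'| ≤ 1) :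
    |a * b - a' * b'| ≤ |a - a'| + |b - b'| := by
  rw [show a * b - a' * b' = (a - a') * b + a' * (b - b') by ring]
  refine (abs_add_le _ _).trans (add_le_add ?_ ?_) <;> rw [abs_mul]
  · exact mul_le_of_le_one_right (abs_nonneg _) h
  · exact mul_le_of_le_one_left (abs_nonneg _) h'

open Classical in
/-- The odd integers of size at most `2 ^ l`. -/
noncomputable def Io (l : ℕ) : Finset ℤ := (Icc (-2 ^ l : ℤ) (2 ^ l)).filter Odd

theorem mem_Io {k : ℤ} : k ∈ Io l ↔ Ok l k := by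
  rw [Io, mem_filter, mem_Icc, ← abs_le, Ok, and_comm]

theorem card_Io (l : ℕ) : ((Io l).card : ℝ) ≤ 3 * 2 ^ l :=
  le_trans (by exact_mod_cast card_filter_le _ _) (card_Icc' l)

theorem Ok.le {k : ℤ} (h : Ok l k) : |k| ≤ 2 ^ (l + 1) :=
  h.2.trans (pow_le_pow_right₀ one_le_two l.le_succ)

theorem sp_dil (hJ : 3 ^ J ≤ 2 ^ l) (c : ZMod N) :
    Sp {η | ∃ k : ℤ, Ok l k ∧ η = (k : ZMod N) * c} fun x : ZMod N => (qq J (c * x) : ℂ) :=
  (sp_qq J).dil c (by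
    rintro _ ⟨k, h1, h2, rfl⟩
    exact ⟨k, ⟨h1, h2.trans (by exact_mod_cast hJ)⟩, rfl⟩)

theorem mom2 (H : Hyp n h l U ε) (hε : 0 ≤ ε) (hJ : 3 ^ J ≤ 2 ^ l) {τ : ℝ}
    (h1 : ∀ a, ∑ ω, |sg (2 ^ a * U ω) - qq J (2 ^ a * U ω)| ≤ τ * Fintype.card Ω) (a : ℕ) {t : ℕ}
    (ht : t < n) (hB : ∀ k₁ k₂, Ok l k₁ → Ok l k₂ → ¬Big n h (k₁ + k₂ * 2 ^ t)) :
    |∑ ω, (sg (2 ^ a * U ω) : ℝ) * sg (2 ^ t * (2 ^ a * U ω))| ≤
      (2 * τ + ((3 * 2 ^ l) ^ 2 + 1) * ε) * Fintype.card Ω := by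
  classical
  have h2 := ((sp_dil (N := N) hJ 1).mul (sp_dil hJ (2 ^ t)) (C := ((Io l ×ˢ Io l).image
    fun k : ℤ × ℤ => ((k.1 + k.2 * 2 ^ t + 0 * 2 ^ t : ℤ) : ZMod N) : Finset _)) (by
      rintro _ ⟨k, h2, rfl⟩ _ ⟨k', h4, rfl⟩
      exact mem_coe.2 (mem_image.2 ⟨(k, k'), mem_product.2 ⟨mem_Io.2 h2, mem_Io.2 h4⟩,
        by simp⟩))).test' (fun ω => 2 ^ a * U ω) (fun x => by
      rw [Pi.mul_apply, norm_mul]
      exact mul_le_one₀ (norm_qq J _) (norm_nonneg _) (norm_qq J _))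
    (ε := ε * Fintype.card Ω) (by positivity) fun η hη => by
      obtain ⟨k, hk, rfl⟩ := mem_image.1 hη
      have o₁ := mem_Io.1 (mem_product.1 hk).1
      have o₂ := mem_Io.1 (mem_product.1 hk).2
      exact H a t ht t ht _ _ 0 o₁.le o₂.le (by positivity) (by simpa using hB _ _ o₁ o₂)
  simp only [Pi.mul_apply, one_mul, ← Complex.ofReal_mul, ← Complex.ofReal_sum, Complex.norm_real,
    Real.norm_eq_abs] at h2
  have h3 := h2.trans (mul_le_mul_of_nonneg_right (add_le_add_left (card_img _ _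
    (b := (3 * 2 ^ l) ^ 2) (by
      rw [card_product, Nat.cast_mul, sq]
      exact mul_le_mul (card_Io l) (card_Io l) (by positivity) (by positivity))) 1) (by positivity))
  have h4 := h1 (t + a)
  simp only [pow_add, mul_assoc] at h4
  have h5 : |∑ ω, (sg (2 ^ a * U ω) : ℝ) * sg (2 ^ t * (2 ^ a * U ω)) -
      ∑ ω, qq J (2 ^ a * U ω) * qq J (2 ^ t * (2 ^ a * U ω))| ≤
      τ * Fintype.card Ω + τ * Fintype.card Ω := by
    rw [← sum_sub_distrib]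
    exact (abs_sum_le_sum_abs _ _).trans ((sum_le_sum fun ω _ =>
      abs_mul_sub (abs_sg _).le (abs_qq J _)).trans (sum_add_distrib.trans_le
        (add_le_add (h1 a) h4)))
  linarith [abs_sub_abs_le_abs_sub (∑ ω, (sg (2 ^ a * U ω) : ℝ) * sg (2 ^ t * (2 ^ a * U ω)))
    (∑ ω, qq J (2 ^ a * U ω) * qq J (2 ^ t * (2 ^ a * U ω)))]

theorem mom3 (H : Hyp n h l U ε) (hε : 0 ≤ ε) (hJ : 3 ^ J ≤ 2 ^ l) {τ : ℝ}
    (h1 : ∀ a, ∑ ω, |sg (2 ^ a * U ω) - qq J (2 ^ a * U ω)| ≤ τ * Fintype.card Ω) (a : ℕ) {s t : ℕ}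
    (hs : s < n) (ht : t < n) (hB : ¬Exc n h l (s, t)) :
    |∑ ω, (sg (2 ^ a * U ω) : ℝ) * sg (2 ^ s * (2 ^ a * U ω)) * sg (2 ^ t * (2 ^ a * U ω))| ≤
      (3 * τ + ((3 * 2 ^ l) ^ 3 + 1) * ε) * Fintype.card Ω := by
  classical
  have h2 := (((sp_dil (N := N) hJ 1).mul (sp_dil hJ (2 ^ s))
    (C := {η | ∃ k k' : ℤ, Ok l k ∧ Ok l k' ∧ η = (k : ZMod N) + (k' : ZMod N) * 2 ^ s}) (by
      rintro _ ⟨k, h2, rfl⟩ _ ⟨k', h4, rfl⟩
      exact ⟨k, k', h2, h4, by simp⟩)).mul (sp_dil hJ (2 ^ t)) (C := ((Io l ×ˢ Io l ×ˢ Io l).image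
    fun k : ℤ × ℤ × ℤ => ((k.1 + k.2.1 * 2 ^ s + k.2.2 * 2 ^ t : ℤ) : ZMod N) : Finset _)) (by
      rintro _ ⟨k, k', h2, h3, rfl⟩ _ ⟨k'', h4, rfl⟩
      exact mem_coe.2 (mem_image.2 ⟨(k, k', k''), mem_product.2 ⟨mem_Io.2 h2,
        mem_product.2 ⟨mem_Io.2 h3, mem_Io.2 h4⟩⟩, by simp⟩))).test' (fun ω => 2 ^ a * U ω)
    (fun x => by
      rw [Pi.mul_apply, Pi.mul_apply, norm_mul, norm_mul]
      exact mul_le_one₀ (mul_le_one₀ (norm_qq J _) (norm_nonneg _) (norm_qq J _)) (norm_nonneg _)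
        (norm_qq J _))
    (ε := ε * Fintype.card Ω) (by positivity) fun η hη => by
      obtain ⟨k, hk, rfl⟩ := mem_image.1 hη
      have o₁ := mem_Io.1 (mem_product.1 hk).1
      have o₂ := mem_Io.1 (mem_product.1 (mem_product.1 hk).2).1
      have o₃ := mem_Io.1 (mem_product.1 (mem_product.1 hk).2).2
      exact H a s hs t ht _ _ _ o₁.le o₂.le o₃.le fun hb => hB ⟨_, _, _, o₁, o₂, o₃, hb⟩
  simp only [Pi.mul_apply, one_mul, ← Complex.ofReal_mul, ← Complex.ofReal_sum, Complex.norm_real,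
    Real.norm_eq_abs] at h2
  have h3 := h2.trans (mul_le_mul_of_nonneg_right (add_le_add_left (card_img _ _
    (b := (3 * 2 ^ l) ^ 3) (by
      rw [card_product, card_product, Nat.cast_mul, Nat.cast_mul, pow_succ', sq]
      exact mul_le_mul (card_Io l) (mul_le_mul (card_Io l) (card_Io l) (by positivity)
        (by positivity)) (by positivity) (by positivity))) 1) (by positivity))
  have h4 := h1 (t + a)
  have h4' := h1 (s + a)
  simp only [pow_add, mul_assoc] at h4 h4'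
  have h5 : |∑ ω, (sg (2 ^ a * U ω) : ℝ) * sg (2 ^ s * (2 ^ a * U ω)) * sg (2 ^ t * (2 ^ a * U ω)) -
      ∑ ω, qq J (2 ^ a * U ω) * qq J (2 ^ s * (2 ^ a * U ω)) * qq J (2 ^ t * (2 ^ a * U ω))| ≤
      τ * Fintype.card Ω + τ * Fintype.card Ω + τ * Fintype.card Ω := by
    rw [← sum_sub_distrib]
    refine (abs_sum_le_sum_abs _ _).trans ((sum_le_sum fun ω _ =>
      (abs_mul_sub (abs_sg _).le ?_).trans (add_le_add_left (abs_mul_sub (abs_sg _).le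
        (abs_qq J _)) _)).trans (sum_add_distrib.trans_le (add_le_add (sum_add_distrib.trans_le
          (add_le_add (h1 a) h4')) h4)))
    rw [abs_mul]
    exact mul_le_one₀ (abs_qq J _) (abs_nonneg _) (abs_qq J _)
  linarith [abs_sub_abs_le_abs_sub
    (∑ ω, (sg (2 ^ a * U ω) : ℝ) * sg (2 ^ s * (2 ^ a * U ω)) * sg (2 ^ t * (2 ^ a * U ω)))
    (∑ ω, qq J (2 ^ a * U ω) * qq J (2 ^ s * (2 ^ a * U ω)) * qq J (2 ^ t * (2 ^ a * U ω)))]

end Pool.Agent.Lib.MP_a01f70_lc.SP
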