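import Pool.Agent.Lib.MP_a01f70_lc.SP.C
import Pool.Agent.Lib.MP_a01f70_lc.Walsh

/-! Binary and signed digits, and the lazy random walk. -/

set_option autoImplicit false
set_option linter.unusedSectionVars false

namespace Pool.Agent.Lib.MP_a01f70_lc.SP

open Finset ZMod

variable {N : ℕ} [NeZero N] {n : ℕ}

theorem two_pow_n (hN : N + 1 = 2 ^ n) : (2 : ZMod N) ^ n = 1 := by
  have h := congrArg (Nat.cast : ℕ → ZMod N) hN
  simpa using h.symm

theorem digit (hN : N + 1 = 2 ^ n) (u : ZMod N) (v : ZMod N → ℤ) (hv : ∀ x, (v x : ZMod N) = x) :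
    ∃ c : ℕ → ℤ, (∀ i, v (2 ^ (i + 1) * u) = 2 * v (2 ^ i * u) - N * c i) ∧
      v u = ∑ i ∈ range n, c i * 2 ^ (n - 1 - i) := by
  have h1 : ∀ i, ∃ c : ℤ, v (2 ^ (i + 1) * u) = 2 * v (2 ^ i * u) - N * c := fun i => by
    obtain ⟨c, hc⟩ := (intCast_zmod_eq_zero_iff_dvd (2 * v (2 ^ i * u) - v (2 ^ (i + 1) * u)) N).1
      (by push_cast; rw [hv, hv]; ring)
    exact ⟨c, by linarith⟩
  choose c hc using h1
  have h2 : ∀ k, v (2 ^ k * u) = 2 ^ k * v u - N * ∑ i ∈ range k, c i * 2 ^ (k - 1 - i) := by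
    intro k
    induction k with
    | zero => simp
    | succ k ih =>
      have h3 : ∑ i ∈ range k, c i * 2 ^ (k + 1 - 1 - i) =
          2 * ∑ i ∈ range k, c i * 2 ^ (k - 1 - i) := by
        rw [mul_sum]
        refine sum_congr rfl fun i hi => ?_
        have := mem_range.1 hi
        rw [show k + 1 - 1 - i = k - 1 - i + 1 by omega]
        ring
      rw [hc, ih, sum_range_succ, h3, show k + 1 - 1 - k = 0 by omega]
      ring
  refine ⟨c, hc, ?_⟩
  have h3 := h2 n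
  have h4 : (N : ℤ) + 1 = 2 ^ n := by exact_mod_cast hN
  rw [two_pow_n hN, one_mul, ← h4] at h3
  exact mul_left_cancel₀ (Nat.cast_ne_zero.2 (NeZero.ne N) : (N : ℤ) ≠ 0) (by linarith)

theorem link {F : Type} [Field F] [Fintype F] [Algebra (ZMod 2) F] {d w : ℕ} (hn : Odd n)
    (hc : Fintype.card F = 2 ^ n) (h : ABF F n d) (hd : 0 < d) (hN : N + 1 = 2 ^ n)
    (s J : Fin w → ℕ) (hJ : ∀ a, J a ≤ 1) :
    XX n ((d * ∑ a, J a * 2 ^ s a : ℕ) : ZMod N) ≤ 2 * w := by
  obtain ⟨u, hu⟩ : ∃ u : ZMod N, u = (d * ∑ a, J a * 2 ^ s a : ℕ) := ⟨_, rfl⟩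
  rw [← hu]
  obtain ⟨c, h1, h2⟩ := digit hN u (fun x => (x.val : ℤ)) (by simp)
  have hN0 : (0 : ℤ) < N := Nat.cast_pos.2 (NeZero.pos N)
  have hNo : 2 ∣ N + 1 := hN ▸ dvd_pow_self 2 hn.pos.ne'
  have h3 : ∀ i, ∃ r : ℕ, c i = 1 - r ∧ sg (2 ^ i * u) = 1 - 2 * r := fun i => by
    have a1 := h1 i
    have a2 := val_lt (2 ^ (i + 1) * u)
    have a3 := val_lt (2 ^ i * u)
    have a4 : c i < 2 := lt_of_mul_lt_mul_left (by omega) hN0.le
    have a5 : -1 < c i := lt_of_mul_lt_mul_left (by omega) hN0.le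
    simp only [sg, valMinAbs_nonneg_iff]
    rcases (by omega : c i = 0 ∨ c i = 1) with a | a <;> rw [a] at a1 ⊢
    · exact ⟨1, by simp, by rw [if_pos (by omega)]; simp⟩
    · exact ⟨0, by simp, by rw [if_neg (by omega)]; simp⟩
  choose r hr hs using h3
  have h4 : ∑ i ∈ range n, (2 : ℤ) ^ (n - 1 - i) = N := by
    have h5 : (N : ℤ) + 1 = 2 ^ n := by exact_mod_cast hN
    rw [sum_range_reflect (fun i => (2 : ℤ) ^ i), ← one_mul (∑ _ ∈ _, _)]
    linarith [mul_geom_sum (2 : ℤ) n]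
  have h5 : u.val + ∑ i ∈ range n, r i * 2 ^ (n - 1 - i) = N := by
    zify
    rw [h2, ← sum_add_distrib, ← h4]
    exact sum_congr rfl fun i _ => by rw [hr]; ring
  have h6 := count_ge hn hc h hd (κ := Fin w ⊕ Fin n) (Sum.elim s fun i => n - 1 - i)
    (Sum.elim J 0) (Sum.elim 0 fun i => r i) (by
      simp only [Fintype.sum_sum_type, Sum.elim_inl, Sum.elim_inr, Pi.zero_apply, zero_mul,
        sum_const_zero, add_zero, zero_add]
      rw [Fin.sum_univ_eq_sum_range (fun i => r i * 2 ^ (n - 1 - i)), ← hN, Nat.add_sub_cancel,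
        ← natCast_eq_zero_iff, Nat.cast_add, ← hu]
      have := congrArg (Nat.cast : ℕ → ZMod N) h5
      rwa [Nat.cast_add, natCast_zmod_val, natCast_self] at this) (by
      simp only [Fintype.sum_sum_type, Sum.elim_inl, Sum.elim_inr, Pi.zero_apply,
        sum_const_zero, add_zero, zero_add]
      refine Nat.add_pos_right _ (Nat.pos_of_ne_zero fun h0 => ?_)
      rw [Fin.sum_univ_eq_sum_range r, sum_eq_zero_iff] at h0
      rw [sum_eq_zero fun i hi => by rw [h0 i hi, zero_mul]] at h5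
      exact (val_lt u).ne h5)
  simp only [Fintype.sum_sum_type, Sum.elim_inl, Sum.elim_inr, Pi.zero_apply,
    sum_const_zero, add_zero, zero_add] at h6
  rw [Fin.sum_univ_eq_sum_range r] at h6
  have h7 : ∑ a, J a ≤ w := by simpa using sum_le_sum fun a (_ : a ∈ univ) => hJ a
  have h8 : n ≤ 2 * w + 2 * ∑ i ∈ range n, r i := by omega
  have h9 := (Nat.cast_le (α := ℝ)).2 h8
  simp only [XX, hs]
  push_cast at h9 ⊢
  rw [sum_sub_distrib, ← mul_sum, sum_const, card_range, nsmul_eq_mul]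
  linarith

/-- A signed sum of at most `T` powers of two. -/
def Sparse (n T : ℕ) (ξ : ZMod N) : Prop :=
  ∃ P M : Finset ℕ, P ⊆ range n ∧ M ⊆ range n ∧ P.card + M.card ≤ T ∧
    ξ = ∑ i ∈ P, 2 ^ i - ∑ i ∈ M, 2 ^ i

theorem re_sum (hN : N + 1 = 2 ^ n) {T : ℕ} {ξ : ZMod N} (h : ¬Sparse n T ξ) :
    (∑ i ∈ range n, stdAddChar (2 ^ i * ξ)).re ≤ n - T / 2 := by
  obtain ⟨c, h1, h2⟩ := digit hN ξ valMinAbs coe_valMinAbs
  have hN0 : (0 : ℝ) < N := Nat.cast_pos.2 (NeZero.pos N)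
  have h3 : ∀ i, (c i = 0 ∨ c i = 1 ∨ c i = -1) ∧ (stdAddChar (2 ^ i * ξ)).re ≤
      1 - ((if c i = 1 then 1 else 0) + if c i = -1 then 1 else 0) / 2 := fun i => by
    have a1 := congrArg (Int.cast : ℤ → ℝ) (h1 i)
    have a2 := abs_vm (2 ^ (i + 1) * ξ)
    have a3 := abs_vm (2 ^ i * ξ)
    have a6 := re_e_le (2 ^ i * ξ)
    push_cast at a1
    generalize (((2 ^ (i + 1) * ξ).valMinAbs : ℤ) : ℝ) = y at *
    generalize (((2 ^ i * ξ).valMinAbs : ℤ) : ℝ) = x at *
    have b1 := le_abs_self x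
    have b2 := neg_abs_le x
    have b3 := le_abs_self y
    have b4 := neg_abs_le y
    have a4 : (c i : ℝ) < 2 := lt_of_mul_lt_mul_left (by linarith) hN0.le
    have a5 : (-2 : ℝ) < c i := lt_of_mul_lt_mul_left (by linarith) hN0.le
    have a7 : c i < 2 := by exact_mod_cast a4
    have a8 : -2 < c i := by exact_mod_cast a5
    have a9 : c i = 0 ∨ c i = 1 ∨ c i = -1 := by omega
    refine ⟨a9, a6.trans ?_⟩
    rcases a9 with a | a | a <;> rw [a] at a1 ⊢ <;> push_cast at a1 <;> norm_num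
    · positivity
    · have : 1 / 4 ≤ x / N := by rw [le_div_iff₀ hN0]; linarith
      nlinarith
    · have : x / N ≤ -1 / 4 := by rw [div_le_iff₀ hN0]; linarith
      nlinarith
  have h4 : T ≤ ((range n).filter fun i => c (n - 1 - i) = 1).card +
      ((range n).filter fun i => c (n - 1 - i) = -1).card := by
    refine le_of_not_ge fun h5 => h ⟨_, _, filter_subset _ _, filter_subset _ _, h5, ?_⟩
    rw [← coe_valMinAbs ξ, h2, ← sum_range_reflect, sum_filter, sum_filter, ← sum_sub_distrib,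
      Int.cast_sum]
    refine sum_congr rfl fun i hi => ?_
    have := mem_range.1 hi
    rw [show n - 1 - (n - 1 - i) = i by omega]
    rcases (h3 (n - 1 - i)).1 with a | a | a <;> simp [a]
  have h5 := (Nat.cast_le (α := ℝ)).2 h4
  rw [Nat.cast_add, ← sum_boole, ← sum_boole, ← sum_add_distrib, sum_range_reflect
    (fun i => ((if c i = 1 then 1 else 0) + if c i = -1 then 1 else 0 : ℝ))] at h5
  rw [Complex.re_sum]
  refine (sum_le_sum fun i _ => (h3 i).2).trans ?_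
  rw [sum_sub_distrib, ← sum_div, sum_const, card_range, nsmul_eq_mul]
  linarith

/-- The end point of the lazy walk. -/
def jj {w : ℕ} (ω : Fin w → Fin n × Bool) : ℕ :=
  ∑ a, (if (ω a).2 then 1 else 0) * 2 ^ ((ω a).1 : ℕ)

theorem e_sum {ι : Type} (S : Finset ι) (f : ι → ZMod N) :
    stdAddChar (∑ i ∈ S, f i) = ∏ i ∈ S, stdAddChar (f i) := by
  classical
  induction S using Finset.induction_on with
  | empty => simp
  | insert i S hi ih => rw [sum_insert hi, prod_insert hi, AddChar.map_add_eq_mul, ih]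

theorem walk (hn : 0 < n) (hN : N + 1 = 2 ^ n) {T d w : ℕ} {η : ZMod N}
    (h : ¬Sparse n T (η * (d : ZMod N)))
    (a : ℕ) : ‖∑ ω : Fin w → Fin n × Bool, chr η (2 ^ a * ((d * jj ω : ℕ) : ZMod N))‖ ≤
      Real.exp (-(T * w / (8 * n))) * Fintype.card (Fin w → Fin n × Bool) := by
  have hn0 : (0 : ℝ) < n := Nat.cast_pos.2 hn
  have h1 : ∀ ω : Fin w → Fin n × Bool, chr η (2 ^ a * ((d * jj ω : ℕ) : ZMod N)) = ∏ b,
      stdAddChar (if (ω b).2 then 2 ^ ((ω b).1 : ℕ) * (2 ^ a * (η * (d : ZMod N))) else 0 : ZMod N) := by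
    intro ω
    rw [← e_sum, chr, jj]
    congr 1
    push_cast
    simp only [mul_sum]
    refine sum_congr rfl fun b _ => ?_
    split_ifs <;> ring
  obtain ⟨L, hL⟩ : ∃ L, L = ∑ i ∈ range n, stdAddChar (2 ^ i * (η * (d : ZMod N))) := ⟨_, rfl⟩
  have h2 : ∑ p : Fin n × Bool,
      stdAddChar (if p.2 then 2 ^ (p.1 : ℕ) * (2 ^ a * (η * (d : ZMod N))) else 0 : ZMod N) = L + n := by
    rw [Fintype.sum_prod_type, hL, ← shift (two_pow_n hN) (fun x => stdAddChar x) a,
      ← Fin.sum_univ_eq_sum_range fun i => stdAddChar (2 ^ i * (2 ^ a * (η * (d : ZMod N))))]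
    simp [sum_add_distrib]
  have h3 := re_sum hN h
  have h4 : ‖L‖ ≤ n := by
    rw [hL]
    refine (norm_sum_le _ _).trans ?_
    simp
  rw [← hL] at h3
  have h5 : ‖L + n‖ ≤ Real.exp (-(T / (8 * n))) * (n * 2) := by
    refine le_of_sq_le_sq ?_ (by positivity)
    have h6 := Real.add_one_le_exp (-(T / (8 * n)) + -(T / (8 * n)))
    have h7 := mul_le_mul_of_nonneg_right h6 (sq_nonneg ((n : ℝ) * 2))
    have h8 : (-((T : ℝ) / (8 * n)) + -(T / (8 * n)) + 1) * (n * 2) ^ 2 = 4 * n ^ 2 - n * T := by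
      field_simp
      ring
    rw [Real.exp_add, ← sq, ← mul_pow, h8] at h7
    refine le_trans ?_ h7
    have h9 := pow_le_pow_left₀ (norm_nonneg _) h4 2
    rw [Complex.sq_norm, Complex.normSq_apply] at h9 ⊢
    simp only [Complex.add_re, Complex.add_im, Complex.natCast_re, Complex.natCast_im, add_zero]
    nlinarith
  simp only [h1]
  rw [← Fintype.sum_pow (fun p : Fin n × Bool =>
    stdAddChar (if p.2 then 2 ^ (p.1 : ℕ) * (2 ^ a * (η * (d : ZMod N))) else 0 : ZMod N)), h2, norm_pow]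
  refine (pow_le_pow_left₀ (norm_nonneg _) h5 w).trans (le_of_eq ?_)
  rw [mul_pow, ← Real.exp_nat_mul]
  congr 1
  · congr 1
    ring
  · simp

end Pool.Agent.Lib.MP_a01f70_lc.SP
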