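import Pool.Agent.Lib.MP_a01f70_lc.SP.D

/-! Choice of the parameters. -/

set_option autoImplicit false
set_option linter.unusedSectionVars false

namespace Pool.Agent.Lib.MP_a01f70_lc.SP

open Finset ZMod Filter

theorem large (c : ℕ) : ∀ᶠ n : ℕ in atTop, c * (Nat.log 2 n + 1) ^ 4 ≤ n := by
  have h1 := (tendsto_pow_const_div_const_pow_of_one_lt 4 (one_lt_two (α := ℝ))).eventually
    (gt_mem_nhds (show (0 : ℝ) < 1 / (2 * c + 1) by positivity))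
  obtain ⟨q, hq⟩ := eventually_atTop.1 h1
  refine eventually_atTop.2 ⟨2 ^ q, fun n hn => ?_⟩
  have h2 := hq (Nat.log 2 n + 1) ((Nat.le_log_of_pow_le one_lt_two hn).trans (Nat.le_succ _))
  have h3 := Nat.pow_log_le_self 2 (Nat.pos_of_ne_zero (by positivity) |>.trans_le hn).ne'
  rw [div_lt_div_iff₀ (by positivity) (by positivity), one_mul] at h2
  have h4 : (Nat.log 2 n + 1) ^ 4 * (2 * c + 1) < 2 ^ (Nat.log 2 n + 1) := by exact_mod_cast h2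
  rw [pow_succ 2] at h4
  nlinarith

theorem cond_G {h q n : ℕ} (hh : 0 < h) (hq : 0 < q) (H : 218 * h ^ 4 * q ^ 4 ≤ n) :
    (2 * (2 ^ (2 * (13 * q) + 2 * (n / (32 * h ^ 4)) + 1)) ^ (4 * h ^ 2) *
      2 ^ (n / (4 * h ^ 2))) ^ (h ^ 2) ≤ 2 ^ n := by
  rw [← pow_mul, ← pow_succ', ← pow_add, ← pow_mul]
  refine Nat.pow_le_pow_right two_pos ?_
  have h1 := Nat.div_mul_le_self n (32 * h ^ 4)
  have h2 := Nat.div_mul_le_self n (4 * h ^ 2)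
  have h3 : h ^ 2 ≤ h ^ 4 := Nat.pow_le_pow_right hh (by norm_num)
  have h4 : h ^ 4 * q ≤ h ^ 4 * q ^ 4 := Nat.mul_le_mul_left _ (Nat.le_self_pow (by norm_num) q)
  have h5 : h ^ 4 ≤ h ^ 4 * q := Nat.le_mul_of_pos_right _ hq
  linarith

theorem pair_ok {n h l R t : ℕ} (hn : 0 < n) (hR : 0 < R)
    (hG : (2 * (2 ^ l) ^ R * 2 ^ (n / R)) ^ h ≤ 4 ^ n) {k₁ k₂ : ℤ} (o₁ : Ok l k₁) (o₂ : Ok l k₂)
    (hB : Big n h (k₁ + k₂ * 2 ^ t)) : n ∣ R.factorial * t := by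
  have h1 := lt_of_pow_lt_pow_left₀ h (Nat.zero_le _) (hG.trans_lt hB)
  have h2 := (ZMod.intCast_zmod_eq_zero_iff_dvd _ _).2
    (Int.gcd_dvd_left (k₁ + k₂ * 2 ^ t) (2 ^ n - 1 : ℕ))
  have h3 := (ratpow (a := t) (p := 0) (q := 0) (H := 2 ^ l) hn hR (two_pow_eq (gcd_dvd_nat _ _))
    o₁.1 o₂.1.neg (by simpa using o₁.2) (by simpa using o₂.2) (by
      push_cast at h2 ⊢
      linear_combination h2) h1).2
  simp only [Nat.cast_zero, add_zero, sub_zero] at h3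
  exact_mod_cast h3

theorem eps_le {n q T w : ℕ} (hn : 0 < n) (hq : 0 < q) (hnq : n < 2 ^ q)
    (hT : 368 * n * q ≤ T * w) :
    28 * ((2 : ℝ) ^ (13 * q)) ^ 3 * Real.exp (-(T * w / (8 * n))) ≤ 1 / n ^ 2 := by
  have hn0 : (0 : ℝ) < n := Nat.cast_pos.2 hn
  have h1 : 28 * (2 ^ (13 * q)) ^ 3 * n ^ 2 ≤ 2 ^ (46 * q) :=
    calc _ ≤ (2 ^ 5) ^ q * (2 ^ (13 * q)) ^ 3 * (2 ^ q) ^ 2 := by
          gcongr
          exact le_trans (by norm_num) (Nat.le_self_pow hq.ne' _)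
      _ = _ := by
          rw [← pow_mul, ← pow_mul, ← pow_mul, ← pow_add, ← pow_add]
          congr 1
          ring
  have h2 : ((2 : ℝ) ^ (46 * q)) ≤ Real.exp (T * w / (8 * n)) := by
    refine (pow_le_pow_left₀ two_pos.le (by linarith [Real.add_one_le_exp 1] : 2 ≤ Real.exp 1)
      _).trans ?_
    rw [← Real.exp_nat_mul, Real.exp_le_exp, le_div_iff₀ (by positivity)]
    have := (Nat.cast_le (α := ℝ)).2 hT
    push_cast at this ⊢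
    linarith
  have h3 := (Nat.cast_le (α := ℝ)).2 h1
  push_cast at h3
  rw [Real.exp_neg, ← div_eq_mul_inv, div_le_div_iff₀ (Real.exp_pos _) (by positivity)]
  linarith

theorem tau_le {N n q : ℕ} [NeZero N] (hn : 0 < n) (hN : N + 1 = 2 ^ n) (hnq : n < 2 ^ q)
    (h2 : 2 * q ≤ n) : ∑ x : ZMod N, (1 - qq (8 * q) x ^ 2) ≤ (7 / n ^ 2 * N : ℝ) := by
  have hn0 : (0 : ℝ) < n := Nat.cast_pos.2 hn
  have hN0 : (0 : ℝ) < N := Nat.cast_pos.2 (NeZero.pos N)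
  have hNo : 2 ∣ N + 1 := hN ▸ dvd_pow_self 2 hn.ne'
  have h1 : n ^ 2 < N + 1 := by
    rw [hN]
    refine (Nat.pow_lt_pow_left hnq two_ne_zero).trans_le ?_
    rw [← pow_mul]
    exact Nat.pow_le_pow_right two_pos (by omega)
  have h3 : (1 : ℝ) ≤ N / n ^ 2 := by
    rw [one_le_div (by positivity)]
    exact_mod_cast Nat.lt_succ_iff.1 h1
  have h4 : ((2 : ℝ) / 3) ^ (8 * q) ≤ 1 / n ^ 4 := by
    have h5 : (n : ℝ) ≤ 2 ^ q := by exact_mod_cast hnq.le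
    calc _ = (((2 : ℝ) / 3) ^ 8) ^ q := pow_mul _ _ _
      _ ≤ (1 / 2 ^ 4) ^ q := by gcongr; norm_num
      _ = 1 / (2 ^ q) ^ 4 := by rw [div_pow, one_pow, ← pow_mul, ← pow_mul, mul_comm]
      _ ≤ _ := by gcongr
  refine (sum_one_sub (N := N) (Nat.odd_iff.2 (by omega)) _ (D := N / n ^ 2) (by positivity)).trans ?_
  have h6 : ((2 : ℝ) / 3) ^ (8 * q) * N ^ 2 / (N / n ^ 2) ≤ N / n ^ 2 :=
    calc _ ≤ 1 / n ^ 4 * (N : ℝ) ^ 2 / (N / n ^ 2) := by gcongr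
      _ = _ := by field_simp
  rw [div_mul_eq_mul_div, mul_div_assoc (7 : ℝ)]
  linarith

/-- The number of digits. -/
def TT (h n : ℕ) : ℕ := 2944 * (4 * h ^ 2).factorial * (Nat.log 2 n + 1) * (Nat.sqrt n + 1)

theorem core {h : ℕ} (hh : 0 < h) : ∀ᶠ n : ℕ in atTop, ∀ (N : ℕ) [NeZero N] (F : Type) [Field F]
    [Fintype F] [Algebra (ZMod 2) F] (d : ℕ), Odd n → Fintype.card F = 2 ^ n → ABF F n d → 0 < d →
    N + 1 = 2 ^ n → ∃ s < n, ∃ t < n, ∃ k₁ k₂ k₃ : ℤ, |k₁| ≤ 2 ^ (13 * (Nat.log 2 n + 1) + 1) ∧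
      |k₂| ≤ 2 ^ (13 * (Nat.log 2 n + 1) + 1) ∧ |k₃| ≤ 2 ^ (13 * (Nat.log 2 n + 1) + 1) ∧
      ¬Big n h (k₁ + k₂ * 2 ^ s + k₃ * 2 ^ t) ∧
      Sparse n (TT h n) (((k₁ + k₂ * 2 ^ s + k₃ * 2 ^ t : ℤ) : ZMod N) * (d : ZMod N)) := by
  classical
  unfold TT
  obtain ⟨L, hL⟩ : ∃ L, L = (4 * h ^ 2).factorial := ⟨_, rfl⟩
  obtain ⟨c, hc⟩ : ∃ c, c = L * (841 * L ^ 2 + h * (64 * h ^ 4 + 1) ^ 2 + 25) := ⟨_, rfl⟩
  have hL0 : 0 < L := hL ▸ Nat.factorial_pos _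
  have hc0 : 0 < c := by rw [hc]; positivity
  filter_upwards [large (36 * L * c ^ 2), large (51 * L), large (218 * h ^ 4)] with n b1 b2 b3
  intro N _ F _ _ _ d hn hF hAB hd hN
  have hnq := Nat.lt_pow_succ_log_self one_lt_two n
  rw [← hL]
  have hq : 0 < Nat.log 2 n + 1 := Nat.succ_pos _
  rw [Nat.succ_eq_add_one] at hnq
  generalize Nat.log 2 n + 1 = q at *
  by_contra hcon
  have hn0 := hn.pos
  have q1 : q ≤ q ^ 4 := Nat.le_self_pow (by norm_num) q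
  have q2 : h ≤ h ^ 4 := Nat.le_self_pow (by norm_num) h
  have q3 : h * q ≤ h ^ 4 * q ^ 4 := Nat.mul_le_mul q2 q1
  have q4 : h ≤ h * q := Nat.le_mul_of_pos_right _ hq
  have q5 : q ≤ h * q := Nat.le_mul_of_pos_left _ hh
  have q6 : h ^ 4 ≤ h ^ 4 * q ^ 4 := Nat.le_mul_of_pos_right _ (by positivity)
  have q7 : L ≤ L * q ^ 4 := Nat.le_mul_of_pos_right _ (by positivity)
  rw [mul_assoc] at b2 b3
  obtain ⟨m, L', hmL, hm, hL'⟩ := Nat.exists_coprime n L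
  have he : Odd (n.gcd L) := hn.of_dvd_nat (Nat.gcd_dvd_left _ _)
  have heL : n ≤ m * L :=
    hm.le.trans (Nat.mul_le_mul_left _ (Nat.gcd_le_right _ hL0))
  generalize n.gcd L = e at he hm hL'
  have hm51 : 51 ≤ m := Nat.le_of_mul_le_mul_right (by omega) hL0
  obtain ⟨w, hw⟩ : ∃ w, w = m.sqrt / 4 := ⟨_, rfl⟩
  have w1 : 16 * w ^ 2 ≤ m :=
    le_trans (by
      rw [hw]
      linarith [Nat.pow_le_pow_left (Nat.div_mul_le_self m.sqrt 4) 2]) (Nat.sqrt_le' m)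
  have w2 : m < (4 * w + 4) ^ 2 :=
    (Nat.lt_succ_sqrt' m).trans_le (Nat.pow_le_pow_left (by omega) 2)
  have w3 : 0 < w := Nat.pos_of_ne_zero fun h0 => by rw [h0] at w2; omega
  have w4 : n ≤ 8 * L * w * (n.sqrt + 1) := by
    refine (Nat.pow_le_pow_iff_left two_ne_zero).1 ?_
    have a1 : m ≤ (8 * w) ^ 2 := w2.le.trans (Nat.pow_le_pow_left (by omega) 2)
    calc n ^ 2 = n * n := sq n
      _ ≤ ((8 * w) ^ 2 * L ^ 2) * (n.sqrt + 1) ^ 2 := Nat.mul_le_mul (heL.trans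
          (Nat.mul_le_mul a1 (Nat.le_self_pow two_ne_zero L))) (Nat.lt_succ_sqrt' n).le
      _ = _ := by ring
  have hε := eps_le (T := 2944 * L * q * (n.sqrt + 1)) (w := w) hn0 hq hnq
    (by linarith [Nat.mul_le_mul_left (368 * q) w4])
  have H : Hyp n h (13 * q) (fun ω : Fin w → Fin n × Bool => ((d * jj ω : ℕ) : ZMod N))
      (Real.exp (-((2944 * L * q * (n.sqrt + 1) : ℕ) * w / (8 * n)))) :=
    fun a s hs t ht k₁ k₂ k₃ o₁ o₂ o₃ hB =>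
      walk hn0 hN (fun hS => hcon ⟨s, hs, t, ht, k₁, k₂, k₃, o₁, o₂, o₃, hB, hS⟩) a
  have hε0 := (Real.exp_pos (-((2944 * L * q * (n.sqrt + 1) : ℕ) * w / (8 * n)))).le
  generalize Real.exp (-((2944 * L * q * (n.sqrt + 1) : ℕ) * w / (8 * n))) = ε at H hε hε0
  have hJ : 3 ^ (8 * q) ≤ 2 ^ (13 * q) := by
    rw [pow_mul, pow_mul]
    exact Nat.pow_le_pow_left (by norm_num) q
  have m1 := mom1 H hn0 hε0 hJ (by
    rw [← pow_mul, show 4 = 2 ^ 2 from rfl, ← pow_mul]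
    exact Nat.pow_le_pow_right two_pos (by linarith)) (tau_le hn0 hN hnq (by omega))
  have hG := cond_G hh hq (n := n) (by rw [mul_assoc]; exact b3)
  have hρ : 0 < n / (32 * h ^ 4) := Nat.div_pos (by omega) (by positivity)
  have hE := card_Exc hn0 hh (by positivity) hρ hG
  have hG' : (2 * (2 ^ (13 * q)) ^ (4 * h ^ 2) * 2 ^ (n / (4 * h ^ 2))) ^ h ≤ 4 ^ n := by
    refine le_trans ?_ (hG.trans (Nat.pow_le_pow_left (by norm_num) n))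
    refine (Nat.pow_le_pow_right (by positivity) (Nat.le_self_pow two_ne_zero h)).trans ?_
    gcongr
    · norm_num
    · omega
  have : Nonempty (Fin n) := ⟨⟨0, hn0⟩⟩
  have y1 : (1 : ℝ) ≤ 2 ^ (13 * q) := one_le_pow₀ one_le_two
  have key := moments (m := m) (e := e) (by omega) he (hm ▸ two_pow_n hN)
    (fun ω : Fin w → Fin n × Bool => ((d * jj ω : ℕ) : ZMod N)) (W := 2 * w)
    (τ₂ := 2 * (7 / n ^ 2 + 6 * 2 ^ (13 * q) * ε) + ((3 * 2 ^ (13 * q)) ^ 2 + 1) * ε)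
    (τ₃ := 3 * (7 / n ^ 2 + 6 * 2 ^ (13 * q) * ε) + ((3 * 2 ^ (13 * q)) ^ 3 + 1) * ε)
    (by positivity) (by positivity) (by positivity)
    (fun ω => hm ▸ link hn hF hAB hd hN _ _ fun a => by split_ifs <;> simp)
    ((range n ×ˢ range n).filter (Exc n h (13 * q)))
    (fun a t ht hmt => mom2 H hε0 hJ m1 a (hm ▸ ht) fun k₁ k₂ o₁ o₂ hB => hmt (by
      have a1 := pair_ok hn0 (by positivity) hG' o₁ o₂ hB
      rw [← hL, hm, hL', mul_right_comm] at a1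
      exact hmL.dvd_of_dvd_mul_left (Nat.dvd_of_mul_dvd_mul_right he.pos a1)))
    (fun a s hs t ht hst => mom3 H hε0 hJ m1 a (hm ▸ hs) (hm ▸ ht) fun hx => hst
      (mem_filter.2 ⟨mem_product.2 ⟨mem_range.2 (hm ▸ hs), mem_range.2 (hm ▸ ht)⟩, hx⟩))
  rw [← hm] at key
  rw [← hL] at hE
  generalize ((range n ×ˢ range n).filter (Exc n h (13 * q))).card = E at key hE
  generalize (2 : ℝ) ^ (13 * q) = y at *
  have hn0' : (0 : ℝ) < n ^ 2 := by positivity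
  rw [le_div_iff₀ hn0'] at hε
  have y2 : y * (ε * n ^ 2) ≤ y ^ 3 * (ε * n ^ 2) :=
    mul_le_mul_of_nonneg_right (le_self_pow₀ y1 three_ne_zero) (by positivity)
  have y3 : y ^ 2 * (ε * n ^ 2) ≤ y ^ 3 * (ε * n ^ 2) :=
    mul_le_mul_of_nonneg_right (pow_le_pow_right₀ y1 (by norm_num)) (by positivity)
  have y4 : 1 * (ε * n ^ 2) ≤ y * (ε * n ^ 2) := mul_le_mul_of_nonneg_right y1 (by positivity)
  have y5 : (n : ℝ) ^ 2 * (7 / n ^ 2) = 7 := by field_simp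
  have t₂ : (n : ℝ) ^ 2 * (2 * (7 / n ^ 2 + 6 * y * ε) + ((3 * y) ^ 2 + 1) * ε) ≤ 17 := by
    linarith
  have t₃ : (n : ℝ) ^ 2 * (3 * (7 / n ^ 2 + 6 * y * ε) + ((3 * y) ^ 3 + 1) * ε) ≤ 25 := by
    linarith
  have k1 : 2 * w * m ≤ n * (E + 25) := by
    have a1 := (Nat.cast_le (α := ℝ)).2 w1
    have a2 := (Nat.cast_le (α := ℝ)).2 hm51
    have a3 : (0 : ℝ) ≤ w := Nat.cast_nonneg w
    rw [← Nat.cast_le (α := ℝ)]
    push_cast at a1 a2 ⊢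
    linarith [mul_le_mul_of_nonneg_left a1 a3, mul_le_mul_of_nonneg_left a2 a3,
      mul_le_mul_of_nonneg_left t₂ a3, mul_le_mul_of_nonneg_left t₃ (Nat.cast_nonneg (α := ℝ) n)]
  have k2 : n / (n / (32 * h ^ 4)) ≤ 64 * h ^ 4 := Nat.div_le_of_le_mul (by
    linarith [Nat.lt_mul_div_succ n (show 0 < 32 * h ^ 4 by positivity)])
  have k3 : L * (E + 25) ≤ c * q ^ 2 := by
    have a1 : 1 ≤ q ^ 2 := Nat.one_le_pow _ _ hq
    have a2 : ((2 * (13 * q + 1) + 1) * L) ^ 2 ≤ (29 * q * L) ^ 2 := by gcongr; omega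
    have a3 : h * (n / (n / (32 * h ^ 4)) + 1) ^ 2 ≤ h * (64 * h ^ 4 + 1) ^ 2 * q ^ 2 :=
      le_trans (by gcongr) (Nat.le_mul_of_pos_right _ a1)
    rw [hc, mul_assoc]
    exact Nat.mul_le_mul_left _ (by linarith)
  have k4 : 2 * w ≤ c * q ^ 2 := Nat.le_of_mul_le_mul_right (k1.trans
    ((Nat.mul_le_mul_right _ heL).trans (by linarith [Nat.mul_le_mul_left m k3]))) (by omega : 0 < m)
  have k5 : 0 < c * q ^ 2 := by positivity
  have k6 : m < (6 * (c * q ^ 2)) ^ 2 := w2.trans_le (Nat.pow_le_pow_left (by omega) 2)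
  have k7 := (Nat.mul_lt_mul_right hL0).2 k6
  linarith

end Pool.Agent.Lib.MP_a01f70_lc.SP
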