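import Pool.Agent.Lib.MP_a01f70_lc.SP.E

/-! Counting. -/

set_option autoImplicit false
set_option linter.unusedSectionVars false

namespace Pool.Agent.Lib.MP_a01f70_lc.SP

open Finset Filter

theorem card_sub {n q : ℕ} (hn : 0 < n) (hq : n ≤ 2 ^ q) (T : ℕ) :
    ((range n).powerset.filter fun P => P.card ≤ T).card ≤ 2 ^ ((q + 1) * T) := by
  have h1 : ((range n).powerset.filter fun P => P.card ≤ T) ⊆
      (range (T + 1)).biUnion fun k => powersetCard k (range n) := fun P hP =>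
    mem_biUnion.2 ⟨P.card, mem_range.2 (Nat.lt_succ_of_le (mem_filter.1 hP).2),
      mem_powersetCard.2 ⟨mem_powerset.1 (mem_filter.1 hP).1, rfl⟩⟩
  refine (card_le_card h1).trans ((card_biUnion_le_card_mul _ _ (n ^ T) fun k hk => ?_).trans ?_)
  · rw [card_powersetCard, card_range]
    exact (Nat.choose_le_pow n k).trans
      (Nat.pow_le_pow_right hn (Nat.lt_succ_iff.1 (mem_range.1 hk)))
  · rw [card_range, add_mul q, pow_add, one_mul, pow_mul, mul_comm]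
    exact Nat.mul_le_mul (Nat.pow_le_pow_left hq T) Nat.lt_two_pow_self

theorem gcd_le {n h : ℕ} (hh : 0 < h) {η : ℤ} (hB : ¬Big n h η) :
    (Int.gcd η (2 ^ n - 1 : ℕ) : ℝ) ≤ (2 : ℝ) ^ (2 * n / h : ℝ) := by
  have h0 : (h : ℝ) ≠ 0 := Nat.cast_ne_zero.2 hh.ne'
  refine le_of_pow_le_pow_left₀ hh.ne' (by positivity) ?_
  rw [← Real.rpow_mul_natCast two_pos.le, div_mul_cancel₀ _ h0, Real.rpow_mul two_pos.le,
    Real.rpow_natCast, Real.rpow_two]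
  have := (Nat.cast_le (α := ℝ)).2 (not_lt.1 hB)
  push_cast at this
  refine this.trans (le_of_eq ?_)
  norm_num

theorem card_le {n q h l T : ℕ} (hn : 0 < n) (hq : n ≤ 2 ^ q) (hh : 0 < h) (S : Finset ℕ)
    (hS : ∀ d ∈ S, d < 2 ^ n - 1 ∧ ∃ s < n, ∃ t < n, ∃ k₁ k₂ k₃ : ℤ, |k₁| ≤ 2 ^ l ∧ |k₂| ≤ 2 ^ l ∧
      |k₃| ≤ 2 ^ l ∧ ¬Big n h (k₁ + k₂ * 2 ^ s + k₃ * 2 ^ t) ∧ ∃ P M : Finset ℕ, P ⊆ range n ∧
      M ⊆ range n ∧ P.card + M.card ≤ T ∧ ((2 ^ n - 1 : ℕ) : ℤ) ∣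
        (k₁ + k₂ * 2 ^ s + k₃ * 2 ^ t) * d - (∑ i ∈ P, 2 ^ i - ∑ i ∈ M, 2 ^ i)) :
    (S.card : ℝ) ≤ 2 ^ (2 * q + 3 * (l + 2) + 2 * ((q + 1) * T)) * (2 : ℝ) ^ (2 * n / h : ℝ) := by
  classical
  obtain ⟨I, hI⟩ : ∃ I, I = Icc (-2 ^ l : ℤ) (2 ^ l) := ⟨_, rfl⟩
  obtain ⟨B, hB⟩ : ∃ B, B = (range n).powerset.filter fun P => P.card ≤ T := ⟨_, rfl⟩
  let η : (ℕ × ℕ) × (ℤ × ℤ × ℤ) × Finset ℕ × Finset ℕ → ℤ := fun p =>
    p.2.1.1 + p.2.1.2.1 * 2 ^ p.1.1 + p.2.1.2.2 * 2 ^ p.1.2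
  have h1 : S ⊆ (((range n ×ˢ range n) ×ˢ (I ×ˢ I ×ˢ I) ×ˢ B ×ˢ B).filter
      fun p => ¬Big n h (η p)).biUnion fun p => (range (2 ^ n - 1)).filter fun x : ℕ =>
        ((2 ^ n - 1 : ℕ) : ℤ) ∣ η p * x - (∑ i ∈ p.2.2.1, 2 ^ i - ∑ i ∈ p.2.2.2, 2 ^ i) := by
    intro d hd
    obtain ⟨h0, s, hs, t, ht, k₁, k₂, k₃, o₁, o₂, o₃, hb, P, M, hP, hM, hc, hdv⟩ := hS d hd
    refine mem_biUnion.2 ⟨((s, t), (k₁, k₂, k₃), P, M), mem_filter.2 ⟨?_, hb⟩,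
      mem_filter.2 ⟨mem_range.2 h0, hdv⟩⟩
    simp only [mem_product, hI, hB, mem_Icc, ← abs_le, mem_filter, mem_powerset, mem_range]
    exact ⟨⟨hs, ht⟩, ⟨o₁, o₂, o₃⟩, ⟨hP, by omega⟩, hM, by omega⟩
  have h2 := (Nat.cast_le (α := ℝ)).2 ((card_le_card h1).trans card_biUnion_le)
  rw [Nat.cast_sum] at h2
  have h0 : 0 < 2 ^ n - 1 := Nat.sub_pos_of_lt (Nat.one_lt_two_pow hn.ne')
  refine h2.trans ((sum_le_card_nsmul _ _ _ fun p hp => ((Nat.cast_le (α := ℝ)).2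
    (card_fiber h0 _ _)).trans (gcd_le hh (mem_filter.1 hp).2)).trans ?_)
  rw [nsmul_eq_mul]
  refine mul_le_mul_of_nonneg_right ?_ (by positivity)
  have h3 : I.card ≤ 2 ^ (l + 2) := by
    have := card_Icc' l
    rw [← hI] at this
    have h4 : I.card ≤ 3 * 2 ^ l := by exact_mod_cast this
    rw [pow_add]
    omega
  have h4 := card_sub hn hq T
  rw [← hB] at h4
  norm_cast
  refine (card_filter_le _ _).trans ?_
  simp only [card_product, card_range]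
  calc _ ≤ 2 ^ q * 2 ^ q * (2 ^ (l + 2) * (2 ^ (l + 2) * 2 ^ (l + 2)) *
        (2 ^ ((q + 1) * T) * 2 ^ ((q + 1) * T))) := by gcongr
    _ = _ := by
      simp only [← pow_add]
      congr 1
      ring

theorem cond_K {h L q n : ℕ} (hL : 0 < L) (hq : 0 < q) (hn : 0 < n)
    (H : 4 * (12000 * L * h) ^ 2 * q ^ 4 ≤ n) :
    (2 * q + 3 * (13 * q + 1 + 2) + 2 * ((q + 1) * (2944 * L * q * (n.sqrt + 1)))) * h ≤ n := by
  have h1 : q ≤ L * q * q * (n.sqrt + 1) :=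
    (Nat.le_mul_of_pos_left (n := L * q) _ (by positivity)).trans
      (Nat.le_mul_of_pos_right _ (Nat.succ_pos _))
  have h2 : (q + 1) * (2944 * L * q * (n.sqrt + 1)) ≤ (2 * q) * (2944 * L * q * (n.sqrt + 1)) :=
    Nat.mul_le_mul_right _ (by omega)
  refine (Nat.mul_le_mul_right h (show _ ≤ 12000 * (L * q * q * (n.sqrt + 1)) by linarith)).trans ?_
  refine (Nat.pow_le_pow_iff_left two_ne_zero).1 ?_
  have h3 : (n.sqrt + 1) ^ 2 ≤ 4 * n := by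
    have := Nat.sqrt_le' n
    have := Nat.sqrt_le_self n
    linarith
  calc _ = (12000 * L * h) ^ 2 * q ^ 4 * (n.sqrt + 1) ^ 2 := by ring
    _ ≤ (12000 * L * h) ^ 2 * q ^ 4 * (4 * n) := by gcongr
    _ = 4 * (12000 * L * h) ^ 2 * q ^ 4 * n := by ring
    _ ≤ n * n := by gcongr
    _ = _ := (sq n).symm

theorem TT_le (h : ℕ) {n : ℕ} (hn : 3 ≤ n) :
    (TT h n : ℝ) ≤ (17664 * (4 * h ^ 2).factorial : ℕ) * √n * Real.log n := by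
  have h0 : (3 : ℝ) ≤ n := by exact_mod_cast hn
  have h1 : 1 ≤ Real.log n := by
    rw [Real.le_log_iff_exp_le (by linarith)]
    linarith [Real.exp_one_lt_d9]
  have h2 : (Nat.log 2 n : ℝ) ≤ 2 * Real.log n := by
    have h3 := Real.log_le_log (by positivity)
      ((Nat.cast_le (α := ℝ)).2 (Nat.pow_log_le_self 2 (by omega : n ≠ 0)))
    push_cast at h3
    rw [Real.log_pow] at h3
    nlinarith [Real.log_two_gt_d9, Nat.cast_nonneg (α := ℝ) (Nat.log 2 n)]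
  have h3 : (n.sqrt : ℝ) ≤ √n := Real.nat_sqrt_le_real_sqrt
  have h4 : 1 ≤ √(n : ℝ) := Real.one_le_sqrt.2 (by linarith)
  rw [TT]
  push_cast
  calc _ ≤ 2944 * ((4 * h ^ 2).factorial : ℝ) * (3 * Real.log n) * (2 * √n) := by
        gcongr <;> linarith
    _ = _ := by ring

theorem short_le {n : ℕ} (hn : 2 ^ 14 ≤ n) : (2 : ℤ) ^ (13 * (Nat.log 2 n + 1) + 1) ≤ n ^ 14 := by
  have h1 := Nat.pow_log_le_self 2 (by omega : n ≠ 0)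
  have h2 : 2 ^ (13 * (Nat.log 2 n + 1) + 1) ≤ n ^ 14 :=
    calc _ = (2 ^ Nat.log 2 n) ^ 13 * 2 ^ 14 := by
          rw [← pow_mul, ← pow_add]
          congr 1
          ring
      _ ≤ n ^ 13 * n := by gcongr
      _ = _ := by ring
  exact_mod_cast h2

theorem main {ε : ℝ} (hε : 0 < ε) : ∃ C n₀ : ℕ, ∀ n, Odd n → n₀ ≤ n → ∀ (F : Type) [Field F]
    [Fintype F] [Algebra (ZMod 2) F], Fintype.card F = 2 ^ n → ∀ S : Set ℕ,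
    (∀ d ∈ S, 1 ≤ d ∧ d ≤ 2 ^ n - 2 ∧ ABF F n d) →
    (∀ d ∈ S, ∃ (k₁ k₂ k₃ : ℤ) (s t : ℕ) (P M : Finset ℕ),
      |k₁| ≤ (n : ℤ) ^ 14 ∧ |k₂| ≤ (n : ℤ) ^ 14 ∧ |k₃| ≤ (n : ℤ) ^ 14 ∧ s < n ∧ t < n ∧
      (Int.gcd (k₁ + k₂ * 2 ^ s + k₃ * 2 ^ t) (2 ^ n - 1) : ℝ) ≤ (2 : ℝ) ^ (ε * n) ∧
      P ⊆ range n ∧ M ⊆ range n ∧ (P.card + M.card : ℝ) ≤ C * √n * Real.log n ∧
      (k₁ + k₂ * 2 ^ s + k₃ * 2 ^ t) * d ≡ ∑ i ∈ P, 2 ^ i - ∑ i ∈ M, 2 ^ i [ZMOD 2 ^ n - 1]) ∧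
    (S.ncard : ℝ) ≤ (2 : ℝ) ^ (ε * n) := by
  obtain ⟨h, hh⟩ := exists_nat_gt (3 / ε)
  have hh0 : (0 : ℝ) < h := lt_trans (by positivity) hh
  have hh1 : 0 < h := by exact_mod_cast hh0
  obtain ⟨n₀, H⟩ := eventually_atTop.1 ((core hh1).and
    ((large (4 * (12000 * (4 * h ^ 2).factorial * h) ^ 2)).and (eventually_ge_atTop (2 ^ 14))))
  refine ⟨17664 * (4 * h ^ 2).factorial, n₀, fun n hn hn₀ F _ _ _ hF S hS => ?_⟩
  obtain ⟨H1, H2, H3⟩ := H n hn₀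
  have h0 : 1 < 2 ^ n := Nat.one_lt_two_pow hn.pos.ne'
  have : NeZero (2 ^ n - 1) := ⟨by omega⟩
  have hc : ((2 ^ n - 1 : ℕ) : ℤ) = 2 ^ n - 1 := by
    rw [Nat.cast_sub h0.le]
    norm_num
  have hn0 : (0 : ℝ) ≤ n := Nat.cast_nonneg n
  have h3 : 3 * (n / h : ℝ) ≤ ε * n := by
    rw [div_lt_iff₀ hε] at hh
    rw [← mul_div_assoc, div_le_iff₀ hh0]
    nlinarith
  have h4 : (0 : ℝ) ≤ n / h := by positivity
  have key : ∀ d ∈ S, d < 2 ^ n - 1 ∧ ∃ s < n, ∃ t < n, ∃ k₁ k₂ k₃ : ℤ,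
      |k₁| ≤ 2 ^ (13 * (Nat.log 2 n + 1) + 1) ∧ |k₂| ≤ 2 ^ (13 * (Nat.log 2 n + 1) + 1) ∧
      |k₃| ≤ 2 ^ (13 * (Nat.log 2 n + 1) + 1) ∧ ¬Big n h (k₁ + k₂ * 2 ^ s + k₃ * 2 ^ t) ∧
      ∃ P M : Finset ℕ, P ⊆ range n ∧
      M ⊆ range n ∧ P.card + M.card ≤ TT h n ∧ ((2 ^ n - 1 : ℕ) : ℤ) ∣
        (k₁ + k₂ * 2 ^ s + k₃ * 2 ^ t) * d - (∑ i ∈ P, 2 ^ i - ∑ i ∈ M, 2 ^ i) := by
    intro d hd
    obtain ⟨a1, a2, a3⟩ := hS d hd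
    obtain ⟨s, hs, t, ht, k₁, k₂, k₃, o₁, o₂, o₃, hb, P, M, hP, hM, hT, he⟩ :=
      H1 (2 ^ n - 1) F d hn hF a3 a1 (by omega)
    refine ⟨by omega, s, hs, t, ht, k₁, k₂, k₃, o₁, o₂, o₃, hb, P, M, hP, hM, hT, ?_⟩
    rw [← ZMod.intCast_zmod_eq_zero_iff_dvd]
    push_cast at he ⊢
    exact sub_eq_zero.2 he
  refine ⟨fun d hd => ?_, ?_⟩
  · obtain ⟨-, s, hs, t, ht, k₁, k₂, k₃, o₁, o₂, o₃, hb, P, M, hP, hM, hT, he⟩ := key d hd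
    refine ⟨k₁, k₂, k₃, s, t, P, M, o₁.trans (short_le H3), o₂.trans (short_le H3),
      o₃.trans (short_le H3), hs, ht, ?_, hP, hM, ?_, ?_⟩
    · rw [← hc]
      refine (gcd_le hh1 hb).trans (Real.rpow_le_rpow_of_exponent_le one_le_two ?_)
      rw [mul_div_assoc]
      linarith
    · exact le_trans (by exact_mod_cast hT) (TT_le h (by omega))
    · rw [← hc]
      exact (Int.modEq_iff_dvd.2 he).symm
  · have hf : S.Finite := (Set.finite_lt_nat _).subset fun d hd => (key d hd).1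
    rw [Set.ncard_eq_toFinset_card S hf]
    refine (card_le hn.pos (Nat.lt_pow_succ_log_self one_lt_two n).le hh1 _
      fun d hd => key d (hf.mem_toFinset.1 hd)).trans ?_
    have h5 := (Nat.cast_le (α := ℝ)).2 (cond_K (Nat.factorial_pos _) (Nat.succ_pos _) hn.pos H2)
    rw [Nat.cast_mul, ← le_div_iff₀ hh0] at h5
    rw [← Real.rpow_natCast, ← Real.rpow_add two_pos, mul_div_assoc]
    exact Real.rpow_le_rpow_of_exponent_le one_le_two ((add_le_add_left h5 _).trans (by linarith))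

end Pool.Agent.Lib.MP_a01f70_lc.SP
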